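import Mathlib

/-!
# Riemann sums over the grid `(j+1) h`, with error `O(1)`

`F` on `[κ, ∞)` with `|F s - F x| ≤ A (e^{-x} - e^{-s})` for `κ ≤ x ≤ s`.
-/

set_option autoImplicit false

open MeasureTheory Set Filter Topology

namespace RSum56

/-- variation bound -/
def VB (F : ℝ → ℝ) (κ A : ℝ) : Prop :=
  ∀ x s, κ ≤ x → x ≤ s → |F s - F x| ≤ A * (Real.exp (-x) - Real.exp (-s))

lemma VB.comp {F : ℝ → ℝ} {κ A : ℝ} (hF : VB F κ A) {φ : ℝ → ℝ} (hφ : ∀ a b, |φ a - φ b| ≤ |a - b|) :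
    VB (fun y => φ (F y)) κ A := fun x s hx hs => (hφ _ _).trans (hF x s hx hs)

lemma VB.continuousOn {F : ℝ → ℝ} {κ A : ℝ} (hF : VB F κ A) : ContinuousOn F (Ici κ) := by
  intro x hx
  have h : Tendsto (fun s => A * |Real.exp (-x) - Real.exp (-s)|) (𝓝[Ici κ] x) (𝓝 0) := by
    have : ContinuousAt (fun s => A * |Real.exp (-x) - Real.exp (-s)|) x := by fun_prop
    have h2 := this.tendsto
    simp only [sub_self, abs_zero, mul_zero] at h2
    exact h2.mono_left nhdsWithin_le_nhds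
  rw [ContinuousWithinAt, tendsto_iff_dist_tendsto_zero]
  refine squeeze_zero' (Eventually.of_forall fun _ => dist_nonneg) ?_ h
  filter_upwards [self_mem_nhdsWithin] with s hs
  rw [Real.dist_eq]
  rcases le_total x s with h1 | h1
  · have h3 : Real.exp (-s) ≤ Real.exp (-x) := Real.exp_le_exp.2 (by linarith)
    rw [abs_of_nonneg (by linarith : 0 ≤ Real.exp (-x) - Real.exp (-s))]
    exact hF x s hx h1
  · have h3 : Real.exp (-x) ≤ Real.exp (-s) := Real.exp_le_exp.2 (by linarith)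
    rw [abs_of_nonpos (by linarith : Real.exp (-x) - Real.exp (-s) ≤ 0), abs_sub_comm, neg_sub]
    exact hF s x hs h1

/-- cell estimate -/
lemma cell {F : ℝ → ℝ} {κ A : ℝ} (hA : 0 ≤ A) (hF : VB F κ A) {x h : ℝ} (hx : κ ≤ x) (hh : 0 ≤ h) :
    |h * F x - ∫ s in Ioc x (x + h), F s| ≤ h * (A * (Real.exp (-x) - Real.exp (-(x + h)))) := by
  have hc : ContinuousOn F (Icc x (x + h)) := hF.continuousOn.mono fun y hy => hx.trans hy.1
  have hi : IntegrableOn F (Ioc x (x + h)) :=
    (hc.integrableOn_Icc).mono_set Ioc_subset_Icc_self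
  have e : h * F x = ∫ s in Ioc x (x + h), F x := by
    rw [setIntegral_const, Measure.real, Real.volume_Ioc, smul_eq_mul]
    rw [add_sub_cancel_left, ENNReal.toReal_ofReal hh]
  have hci : IntegrableOn (fun _ : ℝ => F x) (Ioc x (x + h)) :=
    (continuous_const : Continuous fun _ : ℝ => F x).integrableOn_Ioc
  rw [e, ← integral_sub hci hi]
  have hb : ∀ s ∈ Ioc x (x + h), ‖F x - F s‖ ≤ A * (Real.exp (-x) - Real.exp (-(x + h))) := by
    intro s hs
    rw [Real.norm_eq_abs, abs_sub_comm]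
    refine (hF x s hx hs.1.le).trans ?_
    have h3 : Real.exp (-(x + h)) ≤ Real.exp (-s) := Real.exp_le_exp.2 (by linarith [hs.2])
    gcongr
  have := norm_setIntegral_le_of_norm_le_const (μ := volume) (s := Ioc x (x + h))
    (by rw [Real.volume_Ioc]; exact ENNReal.ofReal_lt_top) hb
  rw [Real.norm_eq_abs, Measure.real, Real.volume_Ioc, add_sub_cancel_left,
    ENNReal.toReal_ofReal hh] at this
  linarith [this]

/-- the part of the grid above `κ` -/
noncomputable def grid (κ h : ℝ) (K : ℕ) : Finset ℕ :=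
  (Finset.range K).filter fun j => κ ≤ (j + 1 : ℝ) * h

lemma grid_succ_of (κ h : ℝ) (K : ℕ) (hk : κ ≤ (K + 1 : ℝ) * h) :
    grid κ h (K + 1) = insert K (grid κ h K) := by
  unfold grid
  rw [Finset.range_add_one, Finset.filter_insert, if_pos hk]

lemma grid_succ_not (κ h : ℝ) (K : ℕ) (hk : ¬ κ ≤ (K + 1 : ℝ) * h) :
    grid κ h (K + 1) = grid κ h K := by
  unfold grid
  rw [Finset.range_add_one, Finset.filter_insert, if_neg hk]

lemma not_mem_grid (κ h : ℝ) (K : ℕ) : K ∉ grid κ h K := by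
  unfold grid
  simp

/-- upper bound for a sum -/
theorem sum_le {F : ℝ → ℝ} {κ A h : ℝ} (hA : 0 ≤ A) (hF : VB F κ A) (hh : 0 ≤ h)
    (h0 : ∀ y, κ ≤ y → 0 ≤ F y) (hi : IntegrableOn F (Ioi κ)) (K : ℕ) :
    h * ∑ j ∈ grid κ h K, F ((j + 1) * h) ≤ (∫ s in Ioi κ, F s) + h * A := by
  have key : ∀ K : ℕ, h * ∑ j ∈ grid κ h K, F ((j + 1) * h) ≤
      (∫ s in Ioc κ ((K + 1) * h), F s) + h * (A * (1 - Real.exp (-((K + 1) * h)))) := by
    intro K
    induction K with
    | zero =>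
      have h1 : 0 ≤ ∫ s in Ioc κ (((0 : ℕ) + 1 : ℝ) * h), F s :=
        setIntegral_nonneg measurableSet_Ioc fun s hs => h0 s hs.1.le
      have h2 : Real.exp (-(((0 : ℕ) + 1 : ℝ) * h)) ≤ 1 := by
        apply Real.exp_le_one_iff.2; simp [hh]
      have : 0 ≤ h * (A * (1 - Real.exp (-(((0 : ℕ) + 1 : ℝ) * h)))) :=
        mul_nonneg hh (mul_nonneg hA (by linarith))
      have e : grid κ h 0 = ∅ := by simp [grid]
      rw [e, Finset.sum_empty, mul_zero]
      linarith
    | succ K ih =>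
      by_cases hk : κ ≤ (K + 1 : ℝ) * h
      · rw [grid_succ_of κ h K hk, Finset.sum_insert (not_mem_grid κ h K)]
        have hx2 : (((K + 1 : ℕ) : ℝ) + 1) * h = (K + 1 : ℝ) * h + h := by push_cast; ring
        have e : Ioc κ ((K + 1 : ℝ) * h + h) =
            Ioc κ ((K + 1 : ℝ) * h) ∪ Ioc ((K + 1 : ℝ) * h) ((K + 1 : ℝ) * h + h) :=
          (Ioc_union_Ioc_eq_Ioc hk (by linarith)).symm
        have hd : Disjoint (Ioc κ ((K + 1 : ℝ) * h)) (Ioc ((K + 1 : ℝ) * h) ((K + 1 : ℝ) * h + h)) := by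
          rw [Set.disjoint_left]
          intro y hy hy'
          exact absurd hy.2 (not_le.2 hy'.1)
        rw [hx2, e, setIntegral_union hd measurableSet_Ioc
          (hi.mono_set fun y hy => hy.1) (hi.mono_set fun y hy => lt_of_le_of_lt hk hy.1)]
        have hc := cell hA hF hk hh
        have hc' := (abs_le.1 hc).2
        have e2 : h * (A * (1 - Real.exp (-((K + 1 : ℝ) * h + h)))) =
            h * (A * (1 - Real.exp (-((K + 1 : ℝ) * h)))) +
            h * (A * (Real.exp (-((K + 1 : ℝ) * h)) - Real.exp (-((K + 1 : ℝ) * h + h)))) := by ring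
        rw [e2, mul_add]
        linarith
      · rw [grid_succ_not κ h K hk]
        refine ih.trans ?_
        have hx2 : (((K + 1 : ℕ) : ℝ) + 1) * h = (K + 1 : ℝ) * h + h := by push_cast; ring
        rw [hx2]
        have b1 : ∫ s in Ioc κ ((K + 1 : ℝ) * h), F s ≤ ∫ s in Ioc κ ((K + 1 : ℝ) * h + h), F s :=
          setIntegral_mono_set (hi.mono_set fun y hy => hy.1)
            ((ae_restrict_iff' measurableSet_Ioc).2 (ae_of_all _ fun s hs => h0 s hs.1.le))
            (Ioc_subset_Ioc_right (by linarith)).eventuallyLE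
        have b2 : Real.exp (-((K + 1 : ℝ) * h + h)) ≤ Real.exp (-((K + 1 : ℝ) * h)) :=
          Real.exp_le_exp.2 (by linarith)
        have b3 : h * (A * (1 - Real.exp (-((K + 1 : ℝ) * h)))) ≤
            h * (A * (1 - Real.exp (-((K + 1 : ℝ) * h + h)))) := by gcongr
        linarith
  refine (key K).trans ?_
  have h1 : ∫ s in Ioc κ ((K + 1 : ℝ) * h), F s ≤ ∫ s in Ioi κ, F s :=
    setIntegral_mono_set hi ((ae_restrict_iff' measurableSet_Ioi).2
      (ae_of_all _ fun s hs => h0 s (le_of_lt hs))) (Ioc_subset_Ioi_self.eventuallyLE)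
  have h2 : A * (1 - Real.exp (-((K + 1 : ℝ) * h))) ≤ A := by
    have := Real.exp_pos (-((K + 1 : ℝ) * h))
    nlinarith
  have h3 := mul_le_mul_of_nonneg_left h2 hh
  linarith

/-- lower bound for a sum -/
theorem le_sum {F : ℝ → ℝ} {κ A h M : ℝ} (hA : 0 ≤ A) (hF : VB F κ A) (hκ : 0 ≤ κ) (hh : 0 ≤ h)
    (h0 : ∀ y, κ ≤ y → 0 ≤ F y) (hM : ∀ y, κ ≤ y → F y ≤ M) (hi : IntegrableOn F (Ioi κ)) (K : ℕ)
    (hK : ∀ y, (K + 1 : ℝ) * h ≤ y → F y = 0) :
    (∫ s in Ioi κ, F s) - h * (M + A) ≤ h * ∑ j ∈ grid κ h K, F ((j + 1) * h) := by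
  have hM0 : 0 ≤ M := (h0 κ le_rfl).trans (hM κ le_rfl)
  have cellM : ∀ x : ℝ, x ≤ κ → ∫ s in Ioc κ (x + h), F s ≤ h * M := by
    intro x hx'
    rcases le_or_gt (x + h) κ with h1 | h1
    · rw [Ioc_eq_empty (by linarith)]
      simp only [Measure.restrict_empty, integral_zero_measure]
      exact mul_nonneg hh hM0
    have hfin : volume (Ioc κ (x + h)) < ⊤ := by
      rw [Real.volume_Ioc]; exact ENNReal.ofReal_lt_top
    have hb : ∀ s ∈ Ioc κ (x + h), ‖F s‖ ≤ M := fun s hs => by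
      rw [Real.norm_eq_abs, abs_of_nonneg (h0 s hs.1.le)]; exact hM s hs.1.le
    have := norm_setIntegral_le_of_norm_le_const (μ := volume) hfin hb
    rw [Real.norm_eq_abs, Measure.real, Real.volume_Ioc, ENNReal.toReal_ofReal (by linarith)] at this
    have h3 := le_abs_self (∫ s in Ioc κ (x + h), F s)
    have h4 : M * (x + h - κ) ≤ M * h := mul_le_mul_of_nonneg_left (by linarith) hM0
    linarith
  have hs0 : ∀ K : ℕ, 0 ≤ h * ∑ j ∈ grid κ h K, F ((j + 1) * h) := fun K =>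
    mul_nonneg hh (Finset.sum_nonneg fun j hj => h0 _ (Finset.mem_filter.1 hj).2)
  have he0 : ∀ K : ℕ, 0 ≤ h * (A * (1 - Real.exp (-((K + 1) * h)))) := fun K => by
    have h2 : Real.exp (-((K + 1 : ℝ) * h)) ≤ 1 := by
      apply Real.exp_le_one_iff.2
      have : 0 ≤ (K + 1 : ℝ) * h := by positivity
      linarith
    exact mul_nonneg hh (mul_nonneg hA (by linarith))
  have key : ∀ K : ℕ, (∫ s in Ioc κ ((K + 1) * h), F s) ≤ h * ∑ j ∈ grid κ h K, F ((j + 1) * h) +
      h * M + h * (A * (1 - Real.exp (-((K + 1) * h)))) := by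
    intro K
    induction K with
    | zero =>
      have h2 := he0 0
      have h3 := hs0 0
      have := cellM 0 hκ
      have e : (((0 : ℕ) + 1 : ℝ) * h) = 0 + h := by simp
      rw [e] at h2 ⊢
      linarith
    | succ K ih =>
      have hx2 : (((K + 1 : ℕ) : ℝ) + 1) * h = (K + 1 : ℝ) * h + h := by push_cast; ring
      by_cases hk : κ ≤ (K + 1 : ℝ) * h
      · rw [grid_succ_of κ h K hk, Finset.sum_insert (not_mem_grid κ h K)]
        have e : Ioc κ ((K + 1 : ℝ) * h + h) =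
            Ioc κ ((K + 1 : ℝ) * h) ∪ Ioc ((K + 1 : ℝ) * h) ((K + 1 : ℝ) * h + h) :=
          (Ioc_union_Ioc_eq_Ioc hk (by linarith)).symm
        have hd : Disjoint (Ioc κ ((K + 1 : ℝ) * h)) (Ioc ((K + 1 : ℝ) * h) ((K + 1 : ℝ) * h + h)) := by
          rw [Set.disjoint_left]
          intro y hy hy'
          exact absurd hy.2 (not_le.2 hy'.1)
        rw [hx2, e, setIntegral_union hd measurableSet_Ioc
          (hi.mono_set fun y hy => hy.1) (hi.mono_set fun y hy => lt_of_le_of_lt hk hy.1)]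
        have hc := cell hA hF hk hh
        have hc' := (abs_le.1 hc).1
        have e2 : h * (A * (1 - Real.exp (-((K + 1 : ℝ) * h + h)))) =
            h * (A * (1 - Real.exp (-((K + 1 : ℝ) * h)))) +
            h * (A * (Real.exp (-((K + 1 : ℝ) * h)) - Real.exp (-((K + 1 : ℝ) * h + h)))) := by ring
        rw [e2, mul_add]
        linarith
      · have h2 := he0 (K + 1)
        have h3 := hs0 (K + 1)
        have := cellM ((K + 1 : ℝ) * h) (not_le.1 hk).le
        rw [hx2] at h2 ⊢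
        linarith
  have h1 := key K
  have h2 : h * (A * (1 - Real.exp (-((K + 1 : ℝ) * h)))) ≤ h * A := by
    have := Real.exp_pos (-((K + 1 : ℝ) * h))
    have h3 : A * (1 - Real.exp (-((K + 1 : ℝ) * h))) ≤ A := by nlinarith
    exact mul_le_mul_of_nonneg_left h3 hh
  have e : ∫ s in Ioi κ, F s = ∫ s in Ioc κ ((K + 1 : ℝ) * h), F s := by
    refine setIntegral_eq_of_subset_of_forall_sdiff_eq_zero measurableSet_Ioi Ioc_subset_Ioi_self ?_
    intro x hx
    apply hK
    by_contra hc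
    exact hx.2 ⟨hx.1, (not_le.1 hc).le⟩
  rw [e]
  linarith

end RSum56
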