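import Pool.Agent.NUP.MF.Const
import Pool.Agent.NUGas56.RSum

/-!
# One loop sums of the difference mode

`Rm y = U₋ / U₀` at `y = π k / 8`.  Result: `loop_minus`.
-/

set_option autoImplicit false

open MeasureTheory Set Filter Topology NUMF

namespace LoopM56

noncomputable section

/-- `U₋ / U₀` as a function of `y = π k / 8` -/
def Rm (y : ℝ) : ℝ := (Real.cosh y + 1) * (2 * Real.cosh y - 1) ^ 3 /
  (Real.sinh y * ((2 * Real.cosh y) * (2 * Real.cosh (2 * y))))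

lemma Rm_pos {y : ℝ} (hy : 0 < y) : 0 < Rm y := by
  have c1 := Real.one_le_cosh y
  have c2 := Real.one_le_cosh (2 * y)
  have s1 := Real.sinh_pos_iff.2 hy
  have : 0 < 2 * Real.cosh y - 1 := by linarith
  unfold Rm
  positivity

lemma log_Rm {y : ℝ} (hy : 0 < y) : Real.log (Rm y) =
    1 / 2 * ell 0 y - 1 / 2 * ell Real.pi y + 3 * ell (2 * Real.pi / 3) y - ell (Real.pi / 2) y -
      ell (Real.pi / 2) (2 * y) := by
  have c1 := Real.one_le_cosh y
  have c2 := Real.one_le_cosh (2 * y)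
  have s1 := Real.sinh_pos_iff.2 hy
  have e1 := log_two_cosh_add (2 * Real.pi / 3) hy
  have e3 := log_two_cosh_add (Real.pi / 2) hy
  have e4 := log_two_cosh_add (Real.pi / 2) (y := 2 * y) (by linarith)
  have e5 := log_two_cosh_add 0 hy
  have e6 := log_two_cosh_add Real.pi hy
  have k1 : Real.cos (2 * Real.pi / 3) = -(1 / 2) := by
    rw [show 2 * Real.pi / 3 = Real.pi - Real.pi / 3 by ring, Real.cos_pi_sub, Real.cos_pi_div_three]
  rw [k1, show 2 * Real.cosh y + 2 * -(1 / 2) = 2 * Real.cosh y - 1 by ring] at e1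
  rw [Real.cos_pi_div_two, mul_zero, add_zero] at e3 e4
  rw [Real.cos_zero, show 2 * Real.cosh y + 2 * 1 = 2 * (Real.cosh y + 1) by ring] at e5
  rw [Real.cos_pi, show 2 * Real.cosh y + 2 * -1 = 2 * (Real.cosh y - 1) by ring] at e6
  have p1 : 0 < 2 * Real.cosh y - 1 := by linarith
  have p3 : 0 < 2 * Real.cosh y := by linarith
  have p4 : 0 < 2 * Real.cosh (2 * y) := by linarith
  have p5 : 0 < Real.cosh y + 1 := by linarith
  have p6 : 0 < Real.cosh y - 1 := by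
    have := Real.cosh_sq y
    nlinarith
  have hs : 2 * Real.log (Real.sinh y) = Real.log (Real.cosh y - 1) + Real.log (Real.cosh y + 1) := by
    rw [← Real.log_mul p6.ne' p5.ne']
    have : (Real.cosh y - 1) * (Real.cosh y + 1) = Real.sinh y ^ 2 := by
      have := Real.cosh_sq y
      nlinarith
    rw [this, Real.log_pow]
    push_cast
    ring
  rw [Real.log_mul two_ne_zero p5.ne'] at e5
  rw [Real.log_mul two_ne_zero p6.ne'] at e6
  unfold Rm
  rw [Real.log_div (by positivity) (by positivity), Real.log_mul (by positivity) (by positivity),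
    Real.log_mul s1.ne' (by positivity), Real.log_mul (by positivity) (by positivity),
    Real.log_pow, e1, e3, e4]
  push_cast
  linarith

lemma int_log_Rm : IntegrableOn (fun y => Real.log (Rm y)) (Ioi 0) ∧
    ∫ y in Ioi (0:ℝ), Real.log (Rm y) = Real.pi ^ 2 / 48 := by
  have hpi := Real.pi_pos
  have i1 := (ell_integrable 0).const_mul (1 / 2)
  have i2 := (ell_integrable Real.pi).const_mul (1 / 2)
  have i3 := (ell_integrable (2 * Real.pi / 3)).const_mul 3
  have i4 := ell_integrable (Real.pi / 2)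
  have i5 := ell2_integrable (Real.pi / 2)
  have hE : EqOn (fun y => 1 / 2 * ell 0 y - 1 / 2 * ell Real.pi y + 3 * ell (2 * Real.pi / 3) y -
      ell (Real.pi / 2) y - ell (Real.pi / 2) (2 * y)) (fun y => Real.log (Rm y)) (Ioi 0) :=
    fun y hy => (log_Rm hy).symm
  refine ⟨IntegrableOn.congr_fun ((((i1.sub i2).add i3).sub i4).sub i5) hE measurableSet_Ioi, ?_⟩
  have b1 := integral_sub i1 i2
  have b2 := integral_add (i1.sub i2) i3
  have b3 := integral_sub ((i1.sub i2).add i3) i4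
  have b4 := integral_sub (((i1.sub i2).add i3).sub i4) i5
  simp only [Pi.add_apply, Pi.sub_apply] at b1 b2 b3 b4
  have l1 := L_eq (a := 0) (by simp [hpi.le])
  have l2 := L_eq (a := Real.pi) (by rw [abs_of_pos hpi])
  have l3 := L_eq (a := 2 * Real.pi / 3) (by rw [abs_of_pos (by positivity)]; linarith)
  have l4 := L_eq (a := Real.pi / 2) (by rw [abs_of_pos (by positivity)]; linarith)
  unfold L at l1 l2 l3 l4
  have l5 := integral_ell2 (Real.pi / 2)
  unfold L at l5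
  rw [← setIntegral_congr_fun measurableSet_Ioi hE, b4, b3, b2, b1, integral_const_mul,
    integral_const_mul, integral_const_mul, l5, l1, l2, l3, l4]
  ring

/-- variation constant -/
def Ak (κ : ℝ) : ℝ := 10 + 2 / (1 - Real.exp (-(2 * κ)))

lemma Ak_den {κ : ℝ} (hκ : 0 < κ) : 0 < 1 - Real.exp (-(2 * κ)) := by
  have : Real.exp (-(2 * κ)) < Real.exp 0 := Real.exp_lt_exp.2 (by linarith)
  rw [Real.exp_zero] at this
  linarith

lemma Ak_nonneg {κ : ℝ} (hκ : 0 < κ) : 0 ≤ Ak κ := by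
  have := Ak_den hκ
  unfold Ak
  positivity

/-- derivative of `log Rm` -/
def dm (y : ℝ) : ℝ := Real.sinh y / (Real.cosh y + 1) + 3 * (2 * Real.sinh y / (2 * Real.cosh y - 1)) -
  (Real.cosh y / Real.sinh y + (2 * Real.sinh y / (2 * Real.cosh y) +
    2 * (Real.sinh (2 * y) * 2) / (2 * Real.cosh (2 * y))))

lemma hasDerivAt_log_Rm {y : ℝ} (hy : 0 < y) : HasDerivAt (fun y => Real.log (Rm y)) (dm y) y := by
  have h2 : ∀ z : ℝ, 0 < z → Real.log (Rm z) = Real.log (Real.cosh z + 1) +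
      3 * Real.log (2 * Real.cosh z - 1) - (Real.log (Real.sinh z) + (Real.log (2 * Real.cosh z) +
        Real.log (2 * Real.cosh (2 * z)))) := by
    intro z hz
    have c1 := Real.one_le_cosh z
    have c2 := Real.one_le_cosh (2 * z)
    have s1 := Real.sinh_pos_iff.2 hz
    have p1 : 0 < 2 * Real.cosh z - 1 := by linarith
    have p3 : 0 < 2 * Real.cosh z := by linarith
    have p4 : 0 < 2 * Real.cosh (2 * z) := by linarith
    have p5 : 0 < Real.cosh z + 1 := by linarith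
    unfold Rm
    rw [Real.log_div (by positivity) (by positivity), Real.log_mul (by positivity) (by positivity),
      Real.log_mul s1.ne' (by positivity), Real.log_mul (by positivity) (by positivity), Real.log_pow]
    push_cast
    ring
  have c1 := Real.one_le_cosh y
  have c2 := Real.one_le_cosh (2 * y)
  have s1 := Real.sinh_pos_iff.2 hy
  have d0 := Real.hasDerivAt_cosh y
  have d1 := (d0.add_const 1).log (by linarith)
  have d2 := ((d0.const_mul 2).sub_const 1).log (by linarith)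
  have d3 := (Real.hasDerivAt_sinh y).log s1.ne'
  have d4 := (d0.const_mul 2).log (by linarith)
  have d5 : HasDerivAt (fun z : ℝ => Real.cosh (2 * z)) (Real.sinh (2 * y) * 2) y := by
    have := (hasDerivAt_id y).const_mul 2
    simp only [id, mul_one] at this
    exact (Real.hasDerivAt_cosh (2 * y)).comp y this
  have d6 := (d5.const_mul 2).log (by linarith)
  have hD := (d1.add (d2.const_mul 3)).sub (d3.add (d4.add d6))
  refine (hD.congr_of_eventuallyEq ?_)
  filter_upwards [lt_mem_nhds hy] with z hz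
  rw [h2 z hz]
  rfl

lemma abs_dm_le {κ y : ℝ} (hκ : 0 < κ) (hy : κ ≤ y) : |dm y| ≤ Ak κ * Real.exp (-y) := by
  have hy0 : 0 < y := by linarith
  obtain ⟨x, hx⟩ : ∃ x, x = Real.exp (-y) := ⟨_, rfl⟩
  obtain ⟨E, hE⟩ : ∃ E, E = Real.exp y := ⟨_, rfl⟩
  obtain ⟨a, ha⟩ : ∃ a, a = 1 - Real.exp (-(2 * κ)) := ⟨_, rfl⟩
  have ha0 : 0 < a := ha ▸ Ak_den hκ
  have hx0 : 0 < x := hx ▸ Real.exp_pos _
  have hx1 : x ≤ 1 := by rw [hx]; exact Real.exp_le_one_iff.2 (by linarith)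
  have hEx : E * x = 1 := by rw [hE, hx, ← Real.exp_add]; simp
  have hE1 : 1 ≤ E := by rw [hE]; exact Real.one_le_exp hy0.le
  have hxx : x * x ≤ 1 - a := by
    rw [ha, hx, ← Real.exp_add]
    have : Real.exp (-y + -y) ≤ Real.exp (-(2 * κ)) := Real.exp_le_exp.2 (by linarith)
    linarith
  have hc : Real.cosh y = (E + x) / 2 := by rw [Real.cosh_eq, hE, hx]
  have hs : Real.sinh y = (E - x) / 2 := by rw [Real.sinh_eq, hE, hx]
  have hc2 : Real.cosh (2 * y) = (E ^ 2 + x ^ 2) / 2 := by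
    rw [Real.cosh_eq, hE, hx, ← Real.exp_nat_mul, ← Real.exp_nat_mul]
    push_cast
    ring_nf
  have hs2 : Real.sinh (2 * y) = (E ^ 2 - x ^ 2) / 2 := by
    rw [Real.sinh_eq, hE, hx, ← Real.exp_nat_mul, ← Real.exp_nat_mul]
    push_cast
    ring_nf
  have hEx1 : a * E ≤ E - x := by
    have : x = E * (x * x) := by rw [← mul_assoc, hEx, one_mul]
    nlinarith
  have hEx0 : 0 < E - x := lt_of_lt_of_le (by positivity) hEx1
  have hd : 0 < E + x - 1 := by linarith
  have e1 : dm y = -(2 / (E - x)) + (3 - 6 * x) / (E + x - 1) + 2 * x / (E + x) +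
      4 * x ^ 2 / (E ^ 2 + x ^ 2) := by
    unfold dm
    rw [hc, hs, hc2, hs2]
    have q1 : (E + x) / 2 + 1 ≠ 0 := by positivity
    have q2 : 2 * ((E + x) / 2) - 1 ≠ 0 := by
      have : 2 * ((E + x) / 2) - 1 = E + x - 1 := by ring
      rw [this]; exact hd.ne'
    have q3 : (E - x) / 2 ≠ 0 := by positivity
    have r1 : (E - x) / 2 / ((E + x) / 2 + 1) - (E + x) / 2 / ((E - x) / 2) = -(2 / (E - x)) := by
      have q4 : E + x + 2 ≠ 0 := by positivity
      have q5 : E - x ≠ 0 := hEx0.ne'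
      field_simp
      nlinarith
    have r2 : 3 * (2 * ((E - x) / 2) / (2 * ((E + x) / 2) - 1)) = 3 + (3 - 6 * x) / (E + x - 1) := by
      have : 2 * ((E + x) / 2) - 1 = E + x - 1 := by ring
      rw [this]
      field_simp
      ring
    have r3 : 2 * ((E - x) / 2) / (2 * ((E + x) / 2)) = 1 - 2 * x / (E + x) := by
      field_simp
      ring
    have r4 : 2 * ((E ^ 2 - x ^ 2) / 2 * 2) / (2 * ((E ^ 2 + x ^ 2) / 2)) =
        2 - 4 * x ^ 2 / (E ^ 2 + x ^ 2) := by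
      field_simp
      ring
    rw [r2, r3, r4]
    linarith
  have t1 : 2 / (E - x) ≤ 2 / a * x := by
    rw [div_le_iff₀ hEx0]
    have : 2 / a * x * (a * E) = 2 := by
      field_simp
      linarith
    have h3 : 2 / a * x * (a * E) ≤ 2 / a * x * (E - x) :=
      mul_le_mul_of_nonneg_left hEx1 (by positivity)
    linarith
  have t1' : 0 ≤ 2 / (E - x) := by positivity
  have t2 : |(3 - 6 * x) / (E + x - 1)| ≤ 4 * x := by
    rw [abs_div, abs_of_pos hd, div_le_iff₀ hd]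
    have : |3 - 6 * x| ≤ 3 := by rw [abs_le]; constructor <;> linarith
    have h4 : 4 * x * (E + x - 1) = 4 * (1 + x ^ 2 - x) := by
      have : x * E = 1 := by rw [mul_comm]; exact hEx
      nlinarith
    nlinarith [sq_nonneg (x - 1 / 2)]
  have t3 : 2 * x / (E + x) ≤ 2 * x := by
    rw [div_le_iff₀ (by positivity)]
    nlinarith
  have t3' : 0 ≤ 2 * x / (E + x) := by positivity
  have t4 : 4 * x ^ 2 / (E ^ 2 + x ^ 2) ≤ 4 * x := by
    rw [div_le_iff₀ (by positivity)]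
    nlinarith [mul_pos hx0 hx0, mul_pos hx0 (by positivity : 0 < x ^ 2)]
  have t4' : 0 ≤ 4 * x ^ 2 / (E ^ 2 + x ^ 2) := by positivity
  have hA : Ak κ * Real.exp (-y) = 10 * x + 2 / a * x := by
    unfold Ak
    rw [← ha, ← hx]
    ring
  rw [hA, e1, abs_le]
  have t2a := (abs_le.1 t2).1
  have t2b := (abs_le.1 t2).2
  have : 0 ≤ 2 / a * x := by positivity
  constructor <;> linarith

lemma VB_log_Rm {κ : ℝ} (hκ : 0 < κ) : RSum56.VB (fun y => Real.log (Rm y)) κ (Ak κ) := by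
  have hmono : ∀ σ : ℝ, |σ| = 1 → MonotoneOn (fun y => σ * Real.log (Rm y) - Ak κ * Real.exp (-y))
      (Ici κ) := by
    intro σ hσ
    have hd : ∀ y ∈ Ici κ, HasDerivAt (fun y => σ * Real.log (Rm y) - Ak κ * Real.exp (-y))
        (σ * dm y - Ak κ * (Real.exp (-y) * -1)) y := by
      intro y hy
      have hy' : κ ≤ y := hy
      have h1 := (hasDerivAt_log_Rm (y := y) (by linarith)).const_mul σ
      have h2 := ((hasDerivAt_neg y).exp).const_mul (Ak κ)
      exact h1.sub h2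
    refine monotoneOn_of_deriv_nonneg (convex_Ici κ)
      (fun y hy => (hd y hy).continuousAt.continuousWithinAt)
      (fun y hy => (hd y (interior_subset hy)).differentiableAt.differentiableWithinAt) ?_
    intro y hy
    have hy' := interior_subset hy
    rw [(hd y hy').deriv]
    have h1 := abs_dm_le hκ hy'
    have h2 : |σ * dm y| ≤ Ak κ * Real.exp (-y) := by rw [abs_mul, hσ, one_mul]; exact h1
    have := (abs_le.1 h2).1
    linarith
  intro x s hx hs
  have m1 := hmono 1 (by simp) (by exact hx : x ∈ Ici κ) (by exact hx.trans hs : s ∈ Ici κ) hs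
  have m2 := hmono (-1) (by simp) (by exact hx : x ∈ Ici κ) (by exact hx.trans hs : s ∈ Ici κ) hs
  simp only at m1 m2
  rw [abs_le]
  constructor <;> linarith

lemma cosh_sub_le_sinh {y : ℝ} (hy : 0 < y) : Real.cosh y - 1 ≤ Real.sinh y := by
  have c1 := Real.one_le_cosh y
  have s1 := Real.sinh_pos_iff.2 hy
  have := Real.cosh_sq y
  nlinarith

lemma Rm_le {y : ℝ} (hy : 0 < y) : Rm y ≤ 2 * (1 + 2 / y) := by
  have c1 := Real.one_le_cosh y
  have s1 := Real.sinh_pos_iff.2 hy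
  have s2 : y ≤ Real.sinh y := Real.self_le_sinh_iff.2 hy.le
  have e2 : Real.cosh (2 * y) = 2 * Real.cosh y ^ 2 - 1 := by
    have := Real.cosh_sq y
    rw [Real.cosh_two_mul]
    linarith
  obtain ⟨c, hc⟩ : ∃ c, c = Real.cosh y := ⟨_, rfl⟩
  have c3 : 1 ≤ c := hc ▸ c1
  have hq : 0 < 2 * c ^ 2 - 1 := by nlinarith
  unfold Rm
  rw [e2, ← hc, div_le_iff₀ (by positivity)]
  have h1 : (2 * c - 1) ^ 3 ≤ 2 * (2 * c * (2 * (2 * c ^ 2 - 1))) := by
    obtain ⟨u, hu⟩ : ∃ u, c = 1 + u := ⟨c - 1, by ring⟩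
    have hu0 : 0 ≤ u := by linarith
    rw [hu]
    nlinarith [mul_nonneg hu0 hu0, mul_nonneg hu0 (mul_nonneg hu0 hu0)]
  have h2 : c + 1 ≤ Real.sinh y * (1 + 2 / y) := by
    have h3 := cosh_sub_le_sinh hy
    rw [← hc] at h3
    have h4 : 2 ≤ Real.sinh y * (2 / y) := by
      have : y * (2 / y) = 2 := by field_simp
      calc (2:ℝ) = y * (2 / y) := this.symm
        _ ≤ _ := mul_le_mul_of_nonneg_right s2 (by positivity)
    linarith
  calc (c + 1) * (2 * c - 1) ^ 3 ≤ (Real.sinh y * (1 + 2 / y)) * (2 * (2 * c * (2 * (2 * c ^ 2 - 1)))) := by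
        have : 0 ≤ (2 * c - 1) ^ 3 := by
          have : 0 ≤ 2 * c - 1 := by linarith
          positivity
        gcongr
    _ = _ := by ring

lemma Rm_le_one {y : ℝ} (hy : 1 ≤ y) : Rm y ≤ 1 := by
  have hy0 : 0 < y := by linarith
  have c1 := Real.one_le_cosh y
  have s1 := Real.sinh_pos_iff.2 hy0
  have cs := Real.cosh_sq y
  have e2 : Real.cosh (2 * y) = 2 * Real.cosh y ^ 2 - 1 := by
    rw [Real.cosh_two_mul]
    linarith
  have c0 : 3 / 2 ≤ Real.cosh y := by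
    have h1 := Real.cosh_two_mul (y / 2)
    have h2 := Real.cosh_sq (y / 2)
    have h3 : y / 2 ≤ Real.sinh (y / 2) := Real.self_le_sinh_iff.2 (by linarith)
    rw [show 2 * (y / 2) = y by ring] at h1
    nlinarith
  obtain ⟨c, hc⟩ : ∃ c, c = Real.cosh y := ⟨_, rfl⟩
  obtain ⟨s, hs⟩ : ∃ s, s = Real.sinh y := ⟨_, rfl⟩
  rw [← hc] at c0 cs e2
  rw [← hs] at s1 cs
  have hq : 0 < 2 * c ^ 2 - 1 := by nlinarith
  have c3 : 0 < c := by linarith
  unfold Rm
  rw [← hc, ← hs, e2, div_le_one (by positivity)]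
  obtain ⟨u, hu⟩ : ∃ u, c = 3 / 2 + u := ⟨c - 3 / 2, by ring⟩
  have hu0 : 0 ≤ u := by linarith
  have hP : 0 ≤ 64 * c ^ 6 - 112 * c ^ 5 - 16 * c ^ 4 + 116 * c ^ 3 - 64 * c ^ 2 + 11 * c - 1 := by
    have : 64 * c ^ 6 - 112 * c ^ 5 - 16 * c ^ 4 + 116 * c ^ 3 - 64 * c ^ 2 + 11 * c - 1 =
        64 * u ^ 6 + 464 * u ^ 5 + 1304 * u ^ 4 + 1820 * u ^ 3 + 1322 * u ^ 2 + 467 * u + 121 / 2 := by
      rw [hu]; ring
    rw [this]
    positivity
  have hsq : ((c + 1) * (2 * c - 1) ^ 3) ^ 2 ≤ (s * (2 * c * (2 * (2 * c ^ 2 - 1)))) ^ 2 := by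
    have e : (s * (2 * c * (2 * (2 * c ^ 2 - 1)))) ^ 2 - ((c + 1) * (2 * c - 1) ^ 3) ^ 2 =
        (c + 1) * (64 * c ^ 6 - 112 * c ^ 5 - 16 * c ^ 4 + 116 * c ^ 3 - 64 * c ^ 2 + 11 * c - 1) := by
      have : s ^ 2 = c ^ 2 - 1 := by linarith
      rw [mul_pow, this]
      ring
    have : 0 ≤ (c + 1) * (64 * c ^ 6 - 112 * c ^ 5 - 16 * c ^ 4 + 116 * c ^ 3 - 64 * c ^ 2 + 11 * c - 1) :=
      mul_nonneg (by linarith) hP
    linarith
  exact (abs_le_of_sq_le_sq' hsq (by positivity)).2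

lemma one_le_Rm {y : ℝ} (hy0 : 0 < y) (hy : y ≤ 1 / 2) : 1 ≤ Rm y := by
  have c1 := Real.one_le_cosh y
  have s1 := Real.sinh_pos_iff.2 hy0
  have cs := Real.cosh_sq y
  have e2 : Real.cosh (2 * y) = 2 * Real.cosh y ^ 2 - 1 := by
    rw [Real.cosh_two_mul]
    linarith
  have c0 : Real.cosh y ≤ 8 / 7 := by
    refine (Real.cosh_le_exp_half_sq y).trans ?_
    have h1 : Real.exp (y ^ 2 / 2) ≤ Real.exp (1 / 8) := Real.exp_le_exp.2 (by nlinarith)
    have h2 : Real.exp (1 / 8) ≤ 8 / 7 := by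
      have h3 := Real.add_one_le_exp (-(1 / 8) : ℝ)
      rw [Real.exp_neg] at h3
      have h4 := Real.exp_pos (1 / 8 : ℝ)
      have h5 : (Real.exp (1 / 8))⁻¹ * Real.exp (1 / 8) = 1 := inv_mul_cancel₀ h4.ne'
      nlinarith
    linarith
  obtain ⟨c, hc⟩ : ∃ c, c = Real.cosh y := ⟨_, rfl⟩
  obtain ⟨s, hs⟩ : ∃ s, s = Real.sinh y := ⟨_, rfl⟩
  rw [← hc] at c0 cs e2 c1
  rw [← hs] at s1 cs
  have hq : 0 < 2 * c ^ 2 - 1 := by nlinarith
  have c3 : 0 < c := by linarith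
  unfold Rm
  rw [← hc, ← hs, e2, one_le_div (by positivity)]
  obtain ⟨u, hu⟩ : ∃ u, c = 1 + u := ⟨c - 1, by ring⟩
  have hu0 : 0 ≤ u := by linarith
  have hu1 : u ≤ 1 / 7 := by linarith
  have hP : 64 * c ^ 6 - 112 * c ^ 5 - 16 * c ^ 4 + 116 * c ^ 3 - 64 * c ^ 2 + 11 * c - 1 ≤ 0 := by
    have e : 64 * c ^ 6 - 112 * c ^ 5 - 16 * c ^ 4 + 116 * c ^ 3 - 64 * c ^ 2 + 11 * c - 1 =
        64 * u ^ 6 + 272 * u ^ 5 + 384 * u ^ 4 + 212 * u ^ 3 + 28 * u ^ 2 - 9 * u - 2 := by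
      rw [hu]; ring
    have a2 : u ^ 2 ≤ u * (1 / 7) := by nlinarith
    have a3 : u ^ 3 ≤ u * (1 / 49) := by nlinarith
    have a4 : u ^ 4 ≤ u * (1 / 343) := by nlinarith
    have a5 : u ^ 5 ≤ u * (1 / 2401) := by nlinarith
    have a6 : u ^ 6 ≤ u * (1 / 16807) := by nlinarith
    rw [e]
    linarith
  have hsq : (s * (2 * c * (2 * (2 * c ^ 2 - 1)))) ^ 2 ≤ ((c + 1) * (2 * c - 1) ^ 3) ^ 2 := by
    have e : (s * (2 * c * (2 * (2 * c ^ 2 - 1)))) ^ 2 - ((c + 1) * (2 * c - 1) ^ 3) ^ 2 =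
        (c + 1) * (64 * c ^ 6 - 112 * c ^ 5 - 16 * c ^ 4 + 116 * c ^ 3 - 64 * c ^ 2 + 11 * c - 1) := by
      have : s ^ 2 = c ^ 2 - 1 := by linarith
      rw [mul_pow, this]
      ring
    have : (c + 1) * (64 * c ^ 6 - 112 * c ^ 5 - 16 * c ^ 4 + 116 * c ^ 3 - 64 * c ^ 2 + 11 * c - 1) ≤ 0 :=
      mul_nonpos_of_nonneg_of_nonpos (by linarith) hP
    linarith
  have : 0 ≤ 2 * c - 1 := by linarith
  exact (abs_le_of_sq_le_sq' hsq (by positivity)).2

/-- high part -/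
def Fh (y : ℝ) : ℝ := max (-Real.log (Rm y)) 0

/-- the function `x ↦ - log (ε + (1-ε) e^{-x⁺})` -/
def fl (ε x : ℝ) : ℝ := -Real.log (ε + (1 - ε) * Real.exp (-max x 0))

/-- low part -/
def Fl (ε y : ℝ) : ℝ := fl ε (Real.log (Rm y))

lemma fl_arg_pos {ε : ℝ} (h0 : 0 < ε) (h1 : ε ≤ 1) (x : ℝ) : 0 < ε + (1 - ε) * Real.exp (-max x 0) := by
  have := Real.exp_pos (-max x 0)
  have : 0 ≤ (1 - ε) * Real.exp (-max x 0) := mul_nonneg (by linarith) this.le
  linarith

lemma fl_mono {ε : ℝ} (h0 : 0 < ε) (h1 : ε ≤ 1) {x z : ℝ} (h : x ≤ z) : fl ε x ≤ fl ε z := by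
  unfold fl
  have h2 : Real.exp (-max z 0) ≤ Real.exp (-max x 0) :=
    Real.exp_le_exp.2 (neg_le_neg (max_le_max h le_rfl))
  have := Real.log_le_log (fl_arg_pos h0 h1 z)
    (add_le_add (le_refl ε) (mul_le_mul_of_nonneg_left h2 (by linarith : 0 ≤ 1 - ε)))
  linarith

lemma fl_lip {ε : ℝ} (h0 : 0 < ε) (h1 : ε ≤ 1) (x z : ℝ) : |fl ε x - fl ε z| ≤ |x - z| := by
  wlog h : x ≤ z with H
  · rw [abs_sub_comm, abs_sub_comm x z]
    exact H h0 h1 z x (le_of_not_ge h)
  have m := fl_mono h0 h1 h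
  rw [abs_sub_comm, abs_of_nonneg (by linarith), abs_sub_comm, abs_of_nonneg (by linarith)]
  unfold fl
  have p1 := fl_arg_pos h0 h1 x
  have p2 := fl_arg_pos h0 h1 z
  have h3 : max z 0 - max x 0 ≤ z - x := by
    rcases le_total z 0 with hz | hz
    · rw [max_eq_right hz, max_eq_right (h.trans hz)]; linarith
    · rw [max_eq_left hz]
      have := le_max_left x 0
      linarith
  have h4 : ε + (1 - ε) * Real.exp (-max x 0) ≤
      Real.exp (z - x) * (ε + (1 - ε) * Real.exp (-max z 0)) := by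
    have a1 : 1 ≤ Real.exp (z - x) := Real.one_le_exp (by linarith)
    have a2 : Real.exp (-max x 0) ≤ Real.exp (z - x) * Real.exp (-max z 0) := by
      rw [← Real.exp_add]
      exact Real.exp_le_exp.2 (by linarith)
    have a3 : (1 - ε) * Real.exp (-max x 0) ≤ (1 - ε) * (Real.exp (z - x) * Real.exp (-max z 0)) :=
      mul_le_mul_of_nonneg_left a2 (by linarith)
    nlinarith
  have h5 := Real.log_le_log p1 h4
  rw [Real.log_mul (Real.exp_pos _).ne' p2.ne', Real.log_exp] at h5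
  linarith

lemma fl_nonneg {ε : ℝ} (h0 : 0 < ε) (h1 : ε ≤ 1) (x : ℝ) : 0 ≤ fl ε x := by
  unfold fl
  have : Real.exp (-max x 0) ≤ 1 := Real.exp_le_one_iff.2 (by simp)
  have h2 : ε + (1 - ε) * Real.exp (-max x 0) ≤ 1 := by nlinarith
  have := Real.log_nonpos (fl_arg_pos h0 h1 x).le h2
  linarith

lemma fl_le {ε : ℝ} (h0 : 0 < ε) (h1 : ε ≤ 1) (x : ℝ) : fl ε x ≤ -Real.log ε := by
  unfold fl
  have := Real.exp_pos (-max x 0)
  have h2 : 0 ≤ (1 - ε) * Real.exp (-max x 0) := mul_nonneg (by linarith) this.le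
  have := Real.log_le_log h0 (by linarith : ε ≤ ε + (1 - ε) * Real.exp (-max x 0))
  linarith

lemma fl_le_self {ε : ℝ} (h0 : 0 < ε) (h1 : ε ≤ 1) (x : ℝ) : fl ε x ≤ max x 0 := by
  have := fl_lip h0 h1 x (-|x|)
  unfold fl
  have h2 := Real.exp_pos (-max x 0)
  have h3 : Real.exp (-max x 0) ≤ ε + (1 - ε) * Real.exp (-max x 0) := by
    have : Real.exp (-max x 0) ≤ 1 := Real.exp_le_one_iff.2 (by simp)
    nlinarith
  have := Real.log_le_log h2 h3
  rw [Real.log_exp] at this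
  linarith

lemma fl_zero {ε x : ℝ} (hx : x ≤ 0) : fl ε x = 0 := by
  unfold fl
  rw [max_eq_right hx, neg_zero, Real.exp_zero]
  simp

/-- the loss for positive `ε` -/
lemma fl_ge {ε : ℝ} (h0 : 0 < ε) (h1 : ε ≤ 1) (x : ℝ) :
    max x 0 - Real.sqrt (ε * Real.exp (max x 0)) ≤ fl ε x := by
  unfold fl
  obtain ⟨z, hz⟩ : ∃ z, z = max x 0 := ⟨_, rfl⟩
  have hz0 : 0 ≤ z := hz ▸ le_max_right _ _
  rw [← hz]
  have e1 : ε + (1 - ε) * Real.exp (-z) = Real.exp (-z) * (ε * Real.exp z + (1 - ε)) := by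
    have : Real.exp (-z) * Real.exp z = 1 := by rw [← Real.exp_add]; simp
    linear_combination (-ε) * this
  have p : 0 < ε * Real.exp z + (1 - ε) := by
    have := Real.exp_pos z
    have := mul_pos h0 this
    linarith
  rw [e1, Real.log_mul (Real.exp_pos _).ne' p.ne', Real.log_exp]
  have h2 : Real.log (ε * Real.exp z + (1 - ε)) ≤ Real.sqrt (ε * Real.exp z) := by
    obtain ⟨w, hw⟩ : ∃ w, w = Real.sqrt (ε * Real.exp z) := ⟨_, rfl⟩
    have hw0 : 0 ≤ w := hw ▸ Real.sqrt_nonneg _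
    have hww : ε * Real.exp z = w ^ 2 := by
      rw [hw, Real.sq_sqrt (mul_nonneg h0.le (Real.exp_pos z).le)]
    rw [← hw, hww]
    have h3 : w ^ 2 + (1 - ε) ≤ Real.exp w := by
      -- 1 + w^2 ≤ exp w fails; use exp w ≥ 1 + w + w^2/2 + w^3/6
      have := Real.sum_le_exp_of_nonneg hw0 4
      simp only [Finset.sum_range_succ, Finset.sum_range_zero] at this
      norm_num [Nat.factorial] at this
      nlinarith [mul_nonneg hw0 hw0, sq_nonneg (w - 3 / 2), mul_nonneg hw0 (sq_nonneg (w - 3 / 2))]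
    have := Real.log_le_log (by rw [← hww]; exact p) h3
    rwa [Real.log_exp] at this
  linarith

end

end LoopM56
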