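import Pool.Agent.NUGas56.LoopM

/-!
# One loop sums of the difference mode: the result

For `Λ > 0`, `h = π² / (4 Λ)`, grid points `y_j = (j+1) h` (that is `y_j = π k_j / 8`, `k_j = 2 π (j+1) / Λ`):
`∑ Fh (y_j) - ∑_{y_j ≥ κ} Fl ε (y_j) ≤ (-1/12 + δ) Λ + C`, where
`Fh y = (- log Rm)⁺` and `Fl ε y = - log (1 - (1-ε) (1 - 1/Rm)⁺)`.
-/

set_option autoImplicit false

open MeasureTheory Set Filter Topology NUMF RSum56

namespace LoopM56

noncomputable section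

lemma Fh_eq (y : ℝ) : Fh y = max (-Real.log (Rm y)) 0 := rfl

lemma Fh_nonneg (y : ℝ) : 0 ≤ Fh y := le_max_right _ _

lemma VB_Fh {κ : ℝ} (hκ : 0 < κ) : VB Fh κ (Ak κ) :=
  (VB_log_Rm hκ).comp (φ := fun x => max (-x) 0) fun a b => by
    have := abs_max_sub_max_le_abs (-a) (-b) 0
    rw [show -a - -b = -(a - b) by ring, abs_neg] at this
    exact this

lemma VB_Fl {κ ε : ℝ} (hκ : 0 < κ) (h0 : 0 < ε) (h1 : ε ≤ 1) : VB (Fl ε) κ (Ak κ) :=
  (VB_log_Rm hκ).comp (φ := fl ε) fun a b => fl_lip h0 h1 a b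

lemma cont_log_Rm : ContinuousOn (fun y => Real.log (Rm y)) (Ioi 0) := fun _ hy =>
  (hasDerivAt_log_Rm hy).continuousAt.continuousWithinAt

lemma Fh_integrable : IntegrableOn Fh (Ioi 0) := by
  refine Integrable.mono' int_log_Rm.1.norm ?_ (ae_of_all _ fun y => ?_)
  · refine ContinuousOn.aestronglyMeasurable ?_ measurableSet_Ioi
    exact (cont_log_Rm.neg).sup continuousOn_const
  · rw [Real.norm_eq_abs, abs_of_nonneg (Fh_nonneg y), Real.norm_eq_abs]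
    exact max_le (neg_le_abs _) (abs_nonneg _)

lemma Fl_nonneg {ε : ℝ} (h0 : 0 < ε) (h1 : ε ≤ 1) (y : ℝ) : 0 ≤ Fl ε y := fl_nonneg h0 h1 _

lemma continuous_fl {ε : ℝ} (h0 : 0 < ε) (h1 : ε ≤ 1) : Continuous (fl ε) := by
  have : LipschitzWith 1 (fl ε) := LipschitzWith.of_dist_le_mul fun a b => by
    rw [Real.dist_eq, Real.dist_eq, NNReal.coe_one, one_mul]
    exact fl_lip h0 h1 a b
  exact this.continuous

lemma Fl_integrable {ε : ℝ} (h0 : 0 < ε) (h1 : ε ≤ 1) : IntegrableOn (Fl ε) (Ioi 0) := by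
  refine Integrable.mono' int_log_Rm.1.norm ?_ (ae_of_all _ fun y => ?_)
  · refine ContinuousOn.aestronglyMeasurable ?_ measurableSet_Ioi
    exact (continuous_fl h0 h1).comp_continuousOn cont_log_Rm
  · rw [Real.norm_eq_abs, abs_of_nonneg (Fl_nonneg h0 h1 y), Real.norm_eq_abs]
    exact (fl_le_self h0 h1 _).trans (max_le (le_abs_self _) (abs_nonneg _))

lemma Fl_zero {ε y : ℝ} (hy : 1 ≤ y) : Fl ε y = 0 := by
  apply fl_zero
  exact Real.log_nonpos (Rm_pos (by linarith)).le (Rm_le_one hy)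

lemma Fh_zero {y : ℝ} (hy0 : 0 < y) (hy : y ≤ 1 / 2) : Fh y = 0 := by
  have := Real.log_nonneg (one_le_Rm hy0 hy)
  rw [Fh_eq, max_eq_right (by linarith)]

lemma split_Ioi {f : ℝ → ℝ} {a b : ℝ} (hab : a ≤ b) (hf : IntegrableOn f (Ioi a)) :
    ∫ y in Ioi a, f y = (∫ y in Ioc a b, f y) + ∫ y in Ioi b, f y := by
  have hd : Disjoint (Ioc a b) (Ioi b) :=
    Set.disjoint_left.2 fun y hy hy' => absurd hy.2 (not_le.2 hy')
  have h1 : IntegrableOn f (Ioc a b) := hf.mono_set Ioc_subset_Ioi_self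
  have h2 : IntegrableOn f (Ioi b) := hf.mono_set (Ioi_subset_Ioi hab)
  have h3 := setIntegral_union hd measurableSet_Ioi h1 h2
  rw [Ioc_union_Ioi_eq_Ioi hab] at h3
  exact h3

/-- `y^{-1/2}` -/
def qf (y : ℝ) : ℝ := y ^ (-(1 / 2) : ℝ)

lemma qf_nonneg {y : ℝ} (hy : 0 < y) : 0 ≤ qf y := Real.rpow_nonneg hy.le _

lemma qf_sq {y : ℝ} (hy : 0 < y) : qf y ^ 2 = 1 / y := by
  unfold qf
  rw [← Real.rpow_natCast, ← Real.rpow_mul hy.le]
  norm_num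
  exact Real.rpow_neg_one y

lemma qf_integrable (b : ℝ) (hb : 0 ≤ b) : IntegrableOn qf (Ioc 0 b) := by
  have := (intervalIntegral.intervalIntegrable_rpow' (a := 0) (b := b) (r := -(1/2)) (by norm_num))
  rw [intervalIntegrable_iff, uIoc_of_le hb] at this
  exact this

lemma qf_integral (b : ℝ) (hb : 0 ≤ b) : ∫ y in Ioc 0 b, qf y = 2 * Real.sqrt b := by
  rw [← intervalIntegral.integral_of_le hb]
  unfold qf
  rw [integral_rpow (Or.inl (by norm_num))]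
  norm_num
  rw [Real.sqrt_eq_rpow]
  ring

lemma Rm_le' {y : ℝ} (hy : 0 < y) (hy1 : y ≤ 1) : Rm y ≤ 6 * qf y ^ 2 := by
  rw [qf_sq hy]
  refine (Rm_le hy).trans ?_
  have : 1 ≤ 1 / y := by rw [le_div_iff₀ hy]; linarith
  have e : 2 / y = 2 * (1 / y) := by ring
  rw [e]
  linarith

lemma log_Rm_le {y : ℝ} (hy : 0 < y) (hy1 : y ≤ 1) : Real.log (Rm y) ≤ 2 * Real.sqrt 6 * qf y := by
  have h1 := Rm_le' hy hy1
  have h2 : Real.log (Rm y) ≤ Real.log (6 * qf y ^ 2) := Real.log_le_log (Rm_pos hy) h1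
  have h3 : 6 * qf y ^ 2 = (Real.sqrt 6 * qf y) ^ 2 := by
    rw [mul_pow, Real.sq_sqrt (by norm_num)]
  have hq : 0 < qf y := Real.rpow_pos_of_pos hy _
  have h6 : 0 < Real.sqrt 6 := by positivity
  have h4 := Real.log_le_sub_one_of_pos (mul_pos h6 hq)
  rw [h3, Real.log_pow] at h2
  push_cast at h2
  linarith

lemma point_le {ε y : ℝ} (h0 : 0 < ε) (h1 : ε ≤ 1) (hy : 0 < y) (hy1 : y ≤ 1) :
    Fh y - Fl ε y ≤ -Real.log (Rm y) + Real.sqrt (6 * ε) * qf y := by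
  obtain ⟨x, hx⟩ : ∃ x, x = Real.log (Rm y) := ⟨_, rfl⟩
  have h2 := fl_ge h0 h1 x
  have h3 : Fh y = max (-x) 0 := by rw [Fh_eq, hx]
  have h4 : Fl ε y = fl ε x := by rw [hx]; rfl
  have h5 : max (-x) 0 - max x 0 = -x := by
    rcases le_total x 0 with h | h
    · rw [max_eq_left (by linarith), max_eq_right h]; ring
    · rw [max_eq_right (by linarith), max_eq_left h]; ring
  have h6 : Real.exp (max x 0) ≤ 6 * qf y ^ 2 := by
    rcases le_total x 0 with h | h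
    · rw [max_eq_right h, Real.exp_zero, qf_sq hy]
      have : 1 ≤ 1 / y := by rw [le_div_iff₀ hy]; linarith
      linarith
    · rw [max_eq_left h, hx, Real.exp_log (Rm_pos hy)]
      exact Rm_le' hy hy1
  have h7 : Real.sqrt (ε * Real.exp (max x 0)) ≤ Real.sqrt (6 * ε) * qf y := by
    have e : Real.sqrt (6 * ε) * qf y = Real.sqrt (6 * ε * qf y ^ 2) := by
      rw [Real.sqrt_mul (x := 6 * ε) (by positivity) (qf y ^ 2), Real.sqrt_sq (qf_nonneg hy)]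
    rw [e]
    apply Real.sqrt_le_sqrt
    nlinarith
  rw [h3, h4, ← hx]
  linarith

lemma point_le' {ε y : ℝ} (hy1 : 1 ≤ y) : Fh y - Fl ε y ≤ -Real.log (Rm y) := by
  have h1 := Real.log_nonpos (Rm_pos (by linarith)).le (Rm_le_one hy1)
  rw [Fl_zero hy1, Fh_eq, max_eq_left (by linarith)]
  linarith

/-- `∫_κ^∞ (Fh - Fl)` -/
lemma int_sub_le {κ ε : ℝ} (hκ : 0 < κ) (hκ1 : κ ≤ 1 / 2) (h0 : 0 < ε) (h1 : ε ≤ 1) :
    (∫ y in Ioi κ, Fh y) - ∫ y in Ioi κ, Fl ε y ≤ -(Real.pi ^ 2 / 48) +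
      6 * Real.sqrt ε + 12 * Real.sqrt κ := by
  have hI := int_log_Rm
  have hsub : Ioi κ ⊆ Ioi 0 := Ioi_subset_Ioi hκ.le
  have hiF : IntegrableOn Fh (Ioi κ) := Fh_integrable.mono_set hsub
  have hiG : IntegrableOn (Fl ε) (Ioi κ) := (Fl_integrable h0 h1).mono_set hsub
  have hiL : IntegrableOn (fun y => Real.log (Rm y)) (Ioi κ) := hI.1.mono_set hsub
  have hs6 : Real.sqrt 6 ≤ 3 := by
    rw [Real.sqrt_le_left (by norm_num)]; norm_num
  have hκ1' : κ ≤ 1 := by linarith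
  have e1 : (∫ y in Ioi κ, Fh y) - ∫ y in Ioi κ, Fl ε y = ∫ y in Ioi κ, (Fh y - Fl ε y) :=
    (integral_sub hiF hiG).symm
  have hqi : IntegrableOn qf (Ioc κ 1) :=
    (qf_integrable 1 zero_le_one).mono_set (Ioc_subset_Ioc_left hκ.le)
  have b1 : ∫ y in Ioc κ 1, (Fh y - Fl ε y) ≤ ∫ y in Ioc κ 1, (-Real.log (Rm y) +
      Real.sqrt (6 * ε) * qf y) := by
    refine setIntegral_mono_on ((hiF.sub hiG).mono_set Ioc_subset_Ioi_self)
      (((hiL.mono_set Ioc_subset_Ioi_self).neg).add (hqi.const_mul _)) measurableSet_Ioc ?_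
    intro y hy
    exact point_le h0 h1 (hκ.trans hy.1) hy.2
  have b2 : ∫ y in Ioi 1, (Fh y - Fl ε y) ≤ ∫ y in Ioi 1, -Real.log (Rm y) := by
    refine setIntegral_mono_on ((hiF.sub hiG).mono_set (Ioi_subset_Ioi (by linarith)))
      ((hiL.mono_set (Ioi_subset_Ioi (by linarith))).neg) measurableSet_Ioi ?_
    intro y hy
    exact point_le' (le_of_lt hy)
  have b3 : ∫ y in Ioc κ 1, (-Real.log (Rm y) + Real.sqrt (6 * ε) * qf y) =
      (∫ y in Ioc κ 1, -Real.log (Rm y)) + Real.sqrt (6 * ε) * ∫ y in Ioc κ 1, qf y := by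
    have h3 : IntegrableOn (fun y => -Real.log (Rm y)) (Ioc κ 1) :=
      (hiL.mono_set Ioc_subset_Ioi_self).neg
    have h4 : IntegrableOn (fun y => Real.sqrt (6 * ε) * qf y) (Ioc κ 1) := hqi.const_mul _
    rw [integral_add h3 h4, integral_const_mul]
  have b4 : ∫ y in Ioc κ 1, qf y ≤ 2 := by
    have h3 : ∫ y in Ioc κ 1, qf y ≤ ∫ y in Ioc 0 1, qf y :=
      setIntegral_mono_set (qf_integrable 1 zero_le_one)
        ((ae_restrict_iff' measurableSet_Ioc).2 (ae_of_all _ fun y hy => qf_nonneg hy.1))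
        (Ioc_subset_Ioc_left hκ.le).eventuallyLE
    rw [qf_integral 1 zero_le_one, Real.sqrt_one] at h3
    linarith
  have b5 : ∫ y in Ioi κ, -Real.log (Rm y) = -(Real.pi ^ 2 / 48) + ∫ y in Ioc 0 κ, Real.log (Rm y) := by
    have h3 : ∫ y in Ioi (0:ℝ), Real.log (Rm y) = (∫ y in Ioc 0 κ, Real.log (Rm y)) +
        ∫ y in Ioi κ, Real.log (Rm y) := split_Ioi hκ.le hI.1
    rw [hI.2] at h3
    rw [integral_neg]
    linarith
  have b6 : ∫ y in Ioc 0 κ, Real.log (Rm y) ≤ 12 * Real.sqrt κ := by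
    have h3 : ∫ y in Ioc 0 κ, Real.log (Rm y) ≤ ∫ y in Ioc 0 κ, 2 * Real.sqrt 6 * qf y := by
      refine setIntegral_mono_on (hI.1.mono_set Ioc_subset_Ioi_self)
        ((qf_integrable κ hκ.le).const_mul _) measurableSet_Ioc ?_
      intro y hy
      exact log_Rm_le hy.1 (by linarith [hy.2])
    rw [integral_const_mul, qf_integral κ hκ.le] at h3
    have h4 := Real.sqrt_nonneg κ
    nlinarith
  have b7 := split_Ioi (f := fun y => -Real.log (Rm y)) hκ1' hiL.neg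
  have b11 := split_Ioi (f := fun y => Fh y - Fl ε y) hκ1' (hiF.sub hiG)
  rw [e1, b11]
  have b8 : Real.sqrt (6 * ε) ≤ 3 * Real.sqrt ε := by
    rw [Real.sqrt_mul (by norm_num)]
    exact mul_le_mul_of_nonneg_right hs6 (Real.sqrt_nonneg _)
  have b9 : 0 ≤ ∫ y in Ioc κ 1, qf y :=
    setIntegral_nonneg measurableSet_Ioc fun y hy => qf_nonneg (hκ.trans hy.1)
  have b10 : Real.sqrt (6 * ε) * ∫ y in Ioc κ 1, qf y ≤ 3 * Real.sqrt ε * 2 :=
    mul_le_mul b8 b4 b9 (by positivity)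
  linarith

/-- **One loop sum of the difference mode.** -/
theorem loop_minus {κ ε Λ : ℝ} (hκ : 0 < κ) (hκ1 : κ ≤ 1 / 2) (h0 : 0 < ε) (h1 : ε ≤ 1) (hΛ : 0 < Λ)
    (K : ℕ) (hK : 1 ≤ (K + 1 : ℝ) * (Real.pi ^ 2 / (4 * Λ))) (K' : ℕ) :
    (∑ j ∈ Finset.range K', Fh ((j + 1) * (Real.pi ^ 2 / (4 * Λ)))) -
      ∑ j ∈ grid κ (Real.pi ^ 2 / (4 * Λ)) K, Fl ε ((j + 1) * (Real.pi ^ 2 / (4 * Λ))) ≤
    (-(1 / 12) + 3 * Real.sqrt ε + 6 * Real.sqrt κ) * Λ + (2 * Ak κ - Real.log ε) := by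
  have hpi := Real.pi_gt_three
  obtain ⟨h, hh⟩ : ∃ h, h = Real.pi ^ 2 / (4 * Λ) := ⟨_, rfl⟩
  have hh0 : 0 < h := by rw [hh]; positivity
  rw [← hh] at hK ⊢
  have hA := Ak_nonneg hκ
  have hsub : Ioi κ ⊆ Ioi 0 := Ioi_subset_Ioi hκ.le
  -- high part
  have a1 : ∑ j ∈ Finset.range K', Fh ((j + 1) * h) = ∑ j ∈ grid κ h K', Fh ((j + 1) * h) := by
    unfold grid
    rw [Finset.sum_filter_of_ne]
    intro j _ hj
    by_contra hc
    apply hj
    exact Fh_zero (by positivity) (by linarith [not_le.1 hc])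
  have a2 := sum_le hA (VB_Fh hκ) hh0.le (fun y _ => Fh_nonneg y) (Fh_integrable.mono_set hsub) K'
  have a3 := le_sum hA (VB_Fl hκ h0 h1) hκ.le hh0.le (fun y _ => Fl_nonneg h0 h1 y)
    (fun y _ => fl_le h0 h1 _) ((Fl_integrable h0 h1).mono_set hsub) K
    (fun y hy => Fl_zero (hK.trans hy))
  have a4 := int_sub_le hκ hκ1 h0 h1
  rw [a1]
  obtain ⟨S, hS⟩ : ∃ S, S = ∑ j ∈ grid κ h K', Fh ((j + 1) * h) := ⟨_, rfl⟩
  obtain ⟨S', hS'⟩ : ∃ S', S' = ∑ j ∈ grid κ h K, Fl ε ((j + 1) * h) := ⟨_, rfl⟩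
  rw [← hS] at a2 ⊢
  rw [← hS'] at a3 ⊢
  have a5 : h * (S - S') ≤ -(Real.pi ^ 2 / 48) + 6 * Real.sqrt ε + 12 * Real.sqrt κ +
      h * (2 * Ak κ - Real.log ε) := by linarith
  have a6 : h * ((-(1 / 12) + 3 * Real.sqrt ε + 6 * Real.sqrt κ) * Λ) =
      -(Real.pi ^ 2 / 48) + Real.pi ^ 2 / 4 * (3 * Real.sqrt ε + 6 * Real.sqrt κ) := by
    rw [hh]
    field_simp
    ring
  have a7 : 6 * Real.sqrt ε + 12 * Real.sqrt κ ≤
      Real.pi ^ 2 / 4 * (3 * Real.sqrt ε + 6 * Real.sqrt κ) := by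
    have : 2 ≤ Real.pi ^ 2 / 4 := by nlinarith
    have h3 : 0 ≤ 3 * Real.sqrt ε + 6 * Real.sqrt κ := by positivity
    nlinarith
  have a8 : h * (S - S') ≤ h * ((-(1 / 12) + 3 * Real.sqrt ε + 6 * Real.sqrt κ) * Λ +
      (2 * Ak κ - Real.log ε)) := by
    rw [mul_add, a6]
    linarith
  exact le_of_mul_le_mul_left a8 hh0

end

end LoopM56
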