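import Pool.Agent.NUGas56.MixA

/-!
Gaussian mixtures for gases on the circle: from the sharp inequality for linear statistics to the inequality with
additional pair interactions (one component, two components).
-/

set_option autoImplicit false

namespace Mix56

open MeasureTheory ProbabilityTheory ENNReal Finset

/-- the trigonometric polynomial with the coefficients c -/
noncomputable def F (K : ℕ) (c : ℕ → ℂ) (x : ℝ) : ℝ :=
  ∑ k ∈ range K, 2 * ((c k).re * Real.cos (((k : ℝ) + 1) * x) - (c k).im * Real.sin (((k : ℝ) + 1) * x))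

theorem F_eq (K : ℕ) (c : ℕ → ℂ) (x : ℝ) :
    F K c x = ∑ k ∈ range K, 2 * (c k * Complex.exp (((((k : ℝ) + 1) * x : ℝ) : ℂ) * Complex.I)).re := by
  unfold F
  refine sum_congr rfl fun k _ => ?_
  rw [Complex.mul_re, Complex.exp_ofReal_mul_I_re, Complex.exp_ofReal_mul_I_im]

/-- the two real linear statistics of the mode k + 1: false is the cosine, true is minus the sine -/
noncomputable def tr (r : Bool) (x : ℝ) : ℝ := if r then -Real.sin x else Real.cos x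

/-- the linear statistics -/
noncomputable def st {n : ℕ} (k : ℕ) (r : Bool) (θ : Fin n → ℝ) : ℝ := ∑ i, tr r (((k : ℝ) + 1) * θ i)

/-- the coefficients -/
noncomputable def co (c : ℂ) (r : Bool) : ℝ := if r then c.im else c.re

lemma measurable_tr (r : Bool) : Measurable (tr r) := by
  unfold tr
  cases r
  · simpa using Real.measurable_cos
  · simpa using Real.measurable_sin

lemma measurable_st {n : ℕ} (k : ℕ) (r : Bool) : Measurable (st (n := n) k r) := by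
  unfold st
  exact Finset.measurable_sum _ fun i _ => (measurable_tr r).comp ((measurable_pi_apply i).const_mul _)

lemma sum_F {n : ℕ} (K : ℕ) (c : ℕ → ℂ) (θ : Fin n → ℝ) :
    ∑ i, F K c (θ i) = ∑ p ∈ range K ×ˢ (univ : Finset Bool), 2 * co (c p.1) p.2 * st p.1 p.2 θ := by
  rw [sum_product]
  unfold F
  rw [sum_comm]
  refine sum_congr rfl fun k _ => ?_
  rw [Fintype.sum_bool]
  unfold co st tr
  simp only [if_true, Bool.false_eq_true, if_false]
  rw [mul_sum, mul_sum, ← sum_add_distrib]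
  refine sum_congr rfl fun i _ => ?_
  ring

lemma sum_pairs {n : ℕ} (f : Fin n → Fin n → ℝ) (h : ∀ i j, f i j = f j i) :
    ∑ i, ∑ j, f i j = ∑ i, f i i + 2 * ∑ i, ∑ j ∈ Ioi i, f i j := by
  have h1 : ∀ i : Fin n, ∑ j, f i j = ∑ j ∈ Iio i, f i j + f i i + ∑ j ∈ Ioi i, f i j := by
    intro i
    have e : (univ : Finset (Fin n)) = (Iio i ∪ {i}) ∪ Ioi i := by
      ext j
      simp only [mem_univ, mem_union, mem_Iio, mem_singleton, mem_Ioi, true_iff]
      rcases lt_trichotomy j i with h | h | h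
      · exact Or.inl (Or.inl h)
      · exact Or.inl (Or.inr h)
      · exact Or.inr h
    rw [e, sum_union, sum_union, sum_singleton]
    · rw [Finset.disjoint_singleton_right, mem_Iio]
      exact lt_irrefl i
    · rw [Finset.disjoint_left]
      intro j hj hj2
      rw [mem_union, mem_Iio, mem_singleton] at hj
      rw [mem_Ioi] at hj2
      rcases hj with hj | hj
      · exact absurd (hj.trans hj2) (lt_irrefl _)
      · rw [hj] at hj2
        exact absurd hj2 (lt_irrefl _)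
  have h2 : ∑ i : Fin n, ∑ j ∈ Iio i, f i j = ∑ i : Fin n, ∑ j ∈ Ioi i, f i j := by
    rw [sum_comm' (t' := univ) (s' := fun j => Ioi j) (by
      intro x y
      simp)]
    exact sum_congr rfl fun i _ => sum_congr rfl fun j _ => h _ _
  rw [sum_congr rfl fun i _ => h1 i, sum_add_distrib, sum_add_distrib, h2]
  ring

/-- the pair interaction of one component -/
lemma pair_eq {n : ℕ} (k : ℕ) (θ : Fin n → ℝ) :
    ∑ i, ∑ j ∈ Ioi i, Real.cos (((k : ℝ) + 1) * (θ i - θ j)) = (st k false θ ^ 2 + st k true θ ^ 2 - n) / 2 := by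
  have h1 := sum_pairs (fun i j : Fin n => Real.cos (((k : ℝ) + 1) * (θ i - θ j))) (fun i j => by
    rw [← Real.cos_neg]
    congr 1
    ring)
  have h2 : ∑ i : Fin n, ∑ j : Fin n, Real.cos (((k : ℝ) + 1) * (θ i - θ j)) = st k false θ ^ 2 + st k true θ ^ 2 := by
    unfold st tr
    simp only [if_true, Bool.false_eq_true, if_false]
    rw [sq, sq, sum_mul_sum, sum_mul_sum, ← sum_add_distrib]
    refine sum_congr rfl fun i _ => ?_
    rw [← sum_add_distrib]
    refine sum_congr rfl fun j _ => ?_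
    rw [mul_sub, Real.cos_sub]
    ring
  have h3 : ∑ i : Fin n, Real.cos (((k : ℝ) + 1) * (θ i - θ i)) = n := by
    simp
  rw [h2, h3] at h1
  linarith

/-- the pair interaction of two components -/
lemma cross_eq {n n' : ℕ} (k : ℕ) (θ : Fin n → ℝ) (φ : Fin n' → ℝ) :
    ∑ i, ∑ j, Real.cos (((k : ℝ) + 1) * (θ i - φ j)) = st k false θ * st k false φ + st k true θ * st k true φ := by
  unfold st tr
  simp only [if_true, Bool.false_eq_true, if_false]
  rw [sum_mul_sum, sum_mul_sum, ← sum_add_distrib]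
  refine sum_congr rfl fun i _ => ?_
  rw [← sum_add_distrib]
  refine sum_congr rfl fun j _ => ?_
  rw [mul_sub, Real.cos_sub]
  ring

/-! ### from the integral to the lower integral and back -/

variable {Ω : Type*} [MeasurableSpace Ω]

lemma to_lint {ν : Measure Ω} [IsFiniteMeasure ν] {f : Ω → ℝ} (hf : Measurable f) (h0 : ∀ x, 0 ≤ f x) {C : ℝ}
    (hC : ∀ x, f x ≤ C) {R : ℝ} (h : ∫ x, f x ∂ν ≤ R) : ∫⁻ x, ENNReal.ofReal (f x) ∂ν ≤ ENNReal.ofReal R := by
  have hi : Integrable f ν := by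
    refine Integrable.mono' (integrable_const C) hf.aestronglyMeasurable (Filter.Eventually.of_forall fun x => ?_)
    rw [Real.norm_of_nonneg (h0 x)]
    exact hC x
  rw [← ofReal_integral_eq_lintegral_ofReal hi (Filter.Eventually.of_forall h0)]
  exact ENNReal.ofReal_le_ofReal h

lemma of_lint {ν : Measure Ω} {f : Ω → ℝ} (hf : Measurable f) (h0 : ∀ x, 0 ≤ f x) {R : ℝ} (hR : 0 ≤ R)
    (h : ∫⁻ x, ENNReal.ofReal (f x) ∂ν ≤ ENNReal.ofReal R) : ∫ x, f x ∂ν ≤ R := by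
  rw [integral_eq_lintegral_of_nonneg_ae (Filter.Eventually.of_forall h0) hf.aestronglyMeasurable]
  exact ENNReal.toReal_le_of_le_ofReal hR h

lemma tr_le (r : Bool) (x : ℝ) : |tr r x| ≤ 1 := by
  unfold tr
  cases r
  · simpa using Real.abs_cos_le_one x
  · simpa using Real.abs_sin_le_one x

lemma st_le {n : ℕ} (k : ℕ) (r : Bool) (θ : Fin n → ℝ) : |st k r θ| ≤ n := by
  unfold st
  refine (abs_sum_le_sum_abs _ _).trans ?_
  refine (sum_le_sum fun i _ => tr_le r _).trans ?_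
  simp

/-- a uniform bound of the linear statistic -/
lemma sum_F_le {n : ℕ} (K : ℕ) (c : ℕ → ℂ) :
    ∃ C : ℝ, ∀ θ : Fin n → ℝ, ∑ i, F K c (θ i) ≤ C := by
  refine ⟨∑ p ∈ range K ×ˢ (univ : Finset Bool), |2 * co (c p.1) p.2| * n, fun θ => ?_⟩
  rw [sum_F]
  refine sum_le_sum fun p _ => ?_
  refine (le_abs_self _).trans ?_
  rw [abs_mul]
  exact mul_le_mul_of_nonneg_left (st_le _ _ _) (abs_nonneg _)

lemma measurable_sum_F {n : ℕ} (K : ℕ) (c : ℕ → ℂ) : Measurable fun θ : Fin n → ℝ => ∑ i, F K c (θ i) := by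
  have : (fun θ : Fin n → ℝ => ∑ i, F K c (θ i)) =
      fun θ => ∑ p ∈ range K ×ˢ (univ : Finset Bool), 2 * co (c p.1) p.2 * st p.1 p.2 θ := by
    funext θ
    exact sum_F K c θ
  rw [this]
  exact Finset.measurable_sum _ fun p _ => (measurable_st _ _).const_mul _

lemma F_congr {K : ℕ} {c c' : ℕ → ℂ} (h : ∀ k < K, c k = c' k) (x : ℝ) : F K c x = F K c' x := by
  unfold F
  exact sum_congr rfl fun k hk => by rw [h k (mem_range.1 hk)]

lemma norm_sq_co (c : ℂ) : ‖c‖ ^ 2 = co c false ^ 2 + co c true ^ 2 := by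
  unfold co
  simp only [if_true, Bool.false_eq_true, if_false]
  rw [← Complex.normSq_eq_norm_sq, Complex.normSq_apply]
  ring

/-- the hypothesis in the lower integral form -/
lemma hyp_lint {n : ℕ} {ν : Measure (Fin n → ℝ)} [IsFiniteMeasure ν] {V : (Fin n → ℝ) → ℝ} (hV : Measurable V)
    (hV0 : ∀ θ, 0 ≤ V θ) {C : ℝ} (hVC : ∀ θ, V θ ≤ C) {A : ℝ} (hA : 0 ≤ A) {K : ℕ}
    (hS : ∀ c : ℕ → ℂ, ∫ θ, V θ * Real.exp (∑ i, F K c (θ i)) ∂ν ≤
      A * Real.exp (∑ k ∈ range K, ((k : ℝ) + 1) * ‖c k‖ ^ 2)) (c : ℕ → ℂ) :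
    ∫⁻ θ, ENNReal.ofReal (V θ) * ENNReal.ofReal (Real.exp (∑ i, F K c (θ i))) ∂ν ≤
      ENNReal.ofReal A * ENNReal.ofReal (Real.exp (∑ k ∈ range K, ((k : ℝ) + 1) * ‖c k‖ ^ 2)) := by
  obtain ⟨D, hD⟩ := sum_F_le (n := n) K c
  have h1 := to_lint (f := fun θ : Fin n → ℝ => V θ * Real.exp (∑ i, F K c (θ i)))
    (hV.mul (measurable_sum_F K c).exp) (fun θ => mul_nonneg (hV0 θ) (Real.exp_pos _).le) (C := C * Real.exp D)
    (fun θ => mul_le_mul (hVC θ) (Real.exp_le_exp.2 (hD θ)) (Real.exp_pos _).le ((hV0 θ).trans (hVC θ))) (hS c)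
  rw [ENNReal.ofReal_mul hA] at h1
  refine le_trans (le_of_eq (lintegral_congr fun θ => ?_)) h1
  rw [ENNReal.ofReal_mul (hV0 θ)]

/-- **one component** -/
theorem M1 {n : ℕ} {ν : Measure (Fin n → ℝ)} [IsFiniteMeasure ν] {V : (Fin n → ℝ) → ℝ} (hV : Measurable V)
    (hV0 : ∀ θ, 0 ≤ V θ) {C : ℝ} (hVC : ∀ θ, V θ ≤ C) {A : ℝ} (hA : 0 ≤ A) {K : ℕ}
    (hS : ∀ c : ℕ → ℂ, ∫ θ, V θ * Real.exp (∑ i, F K c (θ i)) ∂ν ≤
      A * Real.exp (∑ k ∈ range K, ((k : ℝ) + 1) * ‖c k‖ ^ 2)) (w : ℕ → ℝ) (hw : ∀ k < K, 0 ≤ w k)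
    (hw2 : ∀ k < K, ((k : ℝ) + 1) * w k < 2) (c : ℕ → ℂ) :
    ∫ θ, V θ * Real.exp (∑ i, ∑ j ∈ Ioi i, ∑ k ∈ range K, w k * Real.cos (((k : ℝ) + 1) * (θ i - θ j))) *
      Real.exp (∑ i, F K c (θ i)) ∂ν ≤
    A * Real.exp (-((n : ℝ) / 2 * ∑ k ∈ range K, w k)) * ∏ k ∈ range K, ((1 - ((k : ℝ) + 1) * w k / 2)⁻¹ *
      Real.exp (((k : ℝ) + 1) * ‖c k‖ ^ 2 / (1 - ((k : ℝ) + 1) * w k / 2))) := by
  obtain ⟨S, hSdef⟩ : ∃ S, S = ∑ k ∈ range K, w k := ⟨_, rfl⟩
  rw [← hSdef]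
  -- the pair sums
  have hpair : ∀ θ : Fin n → ℝ, ∑ i, ∑ j ∈ Ioi i, ∑ k ∈ range K, w k * Real.cos (((k : ℝ) + 1) * (θ i - θ j)) =
      ∑ p ∈ range K ×ˢ (univ : Finset Bool), w p.1 * st p.1 p.2 θ ^ 2 / 2 - (n : ℝ) / 2 * S := by
    intro θ
    have e1 : ∑ i, ∑ j ∈ Ioi i, ∑ k ∈ range K, w k * Real.cos (((k : ℝ) + 1) * (θ i - θ j)) =
        ∑ k ∈ range K, w k * ∑ i, ∑ j ∈ Ioi i, Real.cos (((k : ℝ) + 1) * (θ i - θ j)) := by
      simp only [mul_sum]
      have e2 : ∀ i : Fin n, ∑ j ∈ Ioi i, ∑ k ∈ range K, w k * Real.cos (((k : ℝ) + 1) * (θ i - θ j)) =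
          ∑ k ∈ range K, ∑ j ∈ Ioi i, w k * Real.cos (((k : ℝ) + 1) * (θ i - θ j)) := fun i => sum_comm
      rw [sum_congr rfl fun i _ => e2 i, sum_comm]
    rw [e1, sum_product, hSdef, mul_sum, ← sum_sub_distrib]
    refine sum_congr rfl fun k _ => ?_
    rw [pair_eq, Fintype.sum_bool]
    ring
  have hlin := mixN (ν := ν) (W := fun θ : Fin n → ℝ => ENNReal.ofReal (V θ)) hV.ennreal_ofReal
    (range K ×ˢ (univ : Finset Bool)) (P := fun p => st (n := n) p.1 p.2) (fun p => measurable_st _ _)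
    (B := ENNReal.ofReal A) (κ := fun p => (p.1 : ℝ) + 1) (w := fun p => w p.1)
    (fun p hp => hw _ (mem_range.1 (mem_product.1 hp).1)) (fun p hp => hw2 _ (mem_range.1 (mem_product.1 hp).1))
    (fun a => by
      have h1 := hyp_lint hV hV0 hVC hA hS (fun k => (a (k, false) : ℂ) + (a (k, true) : ℂ) * Complex.I)
      have ere : ∀ k, co ((a (k, false) : ℂ) + (a (k, true) : ℂ) * Complex.I) false = a (k, false) := fun k => by
        simp [co]
      have eim : ∀ k, co ((a (k, false) : ℂ) + (a (k, true) : ℂ) * Complex.I) true = a (k, true) := fun k => by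
        simp [co]
      have e1 : ∑ k ∈ range K, ((k : ℝ) + 1) * ‖(a (k, false) : ℂ) + (a (k, true) : ℂ) * Complex.I‖ ^ 2 =
          ∑ i ∈ range K ×ˢ (univ : Finset Bool), ((i.1 : ℝ) + 1) * a i ^ 2 := by
        rw [sum_product]
        refine sum_congr rfl fun k _ => ?_
        rw [Fintype.sum_bool, norm_sq_co, ere, eim]
        ring
      have e2 : ∀ θ : Fin n → ℝ, ∑ i, F K (fun k => (a (k, false) : ℂ) + (a (k, true) : ℂ) * Complex.I) (θ i) =
          ∑ p ∈ range K ×ˢ (univ : Finset Bool), 2 * a p * st p.1 p.2 θ := by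
        intro θ
        rw [sum_F]
        refine sum_congr rfl fun p _ => ?_
        obtain ⟨k, r⟩ := p
        cases r
        · rw [ere]
        · rw [eim]
      rw [e1] at h1
      refine le_trans (le_of_eq (lintegral_congr fun θ => ?_)) h1
      rw [e2 θ]) (fun p => co (c p.1) p.2)
  -- the product
  have hprod : ∏ i ∈ range K ×ˢ (univ : Finset Bool), ((Real.sqrt (1 - ((i.1 : ℝ) + 1) * w i.1 / 2))⁻¹ *
      Real.exp (((i.1 : ℝ) + 1) * co (c i.1) i.2 ^ 2 / (1 - ((i.1 : ℝ) + 1) * w i.1 / 2))) =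
      ∏ k ∈ range K, ((1 - ((k : ℝ) + 1) * w k / 2)⁻¹ *
      Real.exp (((k : ℝ) + 1) * ‖c k‖ ^ 2 / (1 - ((k : ℝ) + 1) * w k / 2))) := by
    rw [prod_product]
    refine prod_congr rfl fun k hk => ?_
    have h1 : 0 < 1 - ((k : ℝ) + 1) * w k / 2 := by
      have := hw2 k (mem_range.1 hk)
      linarith
    rw [Fintype.prod_bool, norm_sq_co]
    have h2 : (Real.sqrt (1 - ((k : ℝ) + 1) * w k / 2))⁻¹ * (Real.sqrt (1 - ((k : ℝ) + 1) * w k / 2))⁻¹ =
        (1 - ((k : ℝ) + 1) * w k / 2)⁻¹ := by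
      rw [← mul_inv, Real.mul_self_sqrt h1.le]
    rw [mul_mul_mul_comm, h2, ← Real.exp_add]
    congr 2
    ring
  rw [hprod] at hlin
  have hQ : 0 ≤ ∏ k ∈ range K, ((1 - ((k : ℝ) + 1) * w k / 2)⁻¹ *
      Real.exp (((k : ℝ) + 1) * ‖c k‖ ^ 2 / (1 - ((k : ℝ) + 1) * w k / 2))) := by
    refine prod_nonneg fun k hk => ?_
    have h1 : 0 < 1 - ((k : ℝ) + 1) * w k / 2 := by
      have := hw2 k (mem_range.1 hk)
      linarith
    positivity
  have hmeas : Measurable fun θ : Fin n → ℝ => ∑ p ∈ range K ×ˢ (univ : Finset Bool), w p.1 * st p.1 p.2 θ ^ 2 / 2 :=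
    Finset.measurable_sum _ fun p _ => (((measurable_st _ _).pow_const 2).const_mul _).div_const _
  have hfun : (fun θ : Fin n → ℝ => V θ * Real.exp (∑ i, ∑ j ∈ Ioi i, ∑ k ∈ range K,
      w k * Real.cos (((k : ℝ) + 1) * (θ i - θ j))) * Real.exp (∑ i, F K c (θ i))) =
      fun θ => V θ * Real.exp (∑ p ∈ range K ×ˢ (univ : Finset Bool), w p.1 * st p.1 p.2 θ ^ 2 / 2 - (n : ℝ) / 2 * S) *
        Real.exp (∑ i, F K c (θ i)) := by
    funext θ
    rw [hpair θ]
  rw [hfun]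
  refine of_lint ((hV.mul (hmeas.sub_const _).exp).mul (measurable_sum_F K c).exp)
    (fun θ => mul_nonneg (mul_nonneg (hV0 θ) (Real.exp_pos _).le) (Real.exp_pos _).le)
    (mul_nonneg (mul_nonneg hA (Real.exp_pos _).le) hQ) ?_
  have e5 : ∀ θ : Fin n → ℝ, ENNReal.ofReal (V θ * Real.exp (∑ p ∈ range K ×ˢ (univ : Finset Bool),
      w p.1 * st p.1 p.2 θ ^ 2 / 2 - (n : ℝ) / 2 * S) * Real.exp (∑ i, F K c (θ i))) =
      ENNReal.ofReal (Real.exp (-((n : ℝ) / 2 * S))) * (ENNReal.ofReal (V θ) * ENNReal.ofReal (Real.exp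
        (∑ p ∈ range K ×ˢ (univ : Finset Bool), (w p.1 * st p.1 p.2 θ ^ 2 / 2 + 2 * co (c p.1) p.2 * st p.1 p.2 θ)))) := by
    intro θ
    rw [← ENNReal.ofReal_mul (hV0 θ), ← ENNReal.ofReal_mul (Real.exp_pos _).le]
    congr 1
    rw [sum_F, sum_add_distrib, sub_eq_add_neg, Real.exp_add, Real.exp_add]
    ring
  refine le_trans (le_of_eq (lintegral_congr e5)) ?_
  rw [lintegral_const_mul' _ _ ENNReal.ofReal_ne_top]
  refine (mul_le_mul_right hlin _).trans (le_of_eq ?_)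
  rw [← ENNReal.ofReal_mul hA, ← ENNReal.ofReal_mul (Real.exp_pos _).le]
  congr 1
  ring

end Mix56
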