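import Pool.Agent.NUGas56.Mix

/-!
Gaussian mixtures for gases on the circle: two components.
-/

set_option autoImplicit false

namespace Mix56

open MeasureTheory ProbabilityTheory ENNReal Finset

/-- the sign of the mode: false is the sum mode, true the difference mode -/
noncomputable def sn (s : Bool) : ℝ := if s then -1 else 1

/-- sums over the modes -/
lemma sum3 (K : ℕ) (f : ℕ × Bool × Bool → ℝ) :
    ∑ p ∈ range K ×ˢ (univ : Finset (Bool × Bool)), f p =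
      ∑ k ∈ range K, (f (k, false, false) + f (k, true, false) + (f (k, false, true) + f (k, true, true))) := by
  rw [sum_product]
  refine sum_congr rfl fun k _ => ?_
  rw [Fintype.sum_prod_type, Fintype.sum_bool, Fintype.sum_bool, Fintype.sum_bool]
  ring

lemma prod3 (K : ℕ) (f : ℕ × Bool × Bool → ℝ) :
    ∏ p ∈ range K ×ˢ (univ : Finset (Bool × Bool)), f p =
      ∏ k ∈ range K, (f (k, false, false) * f (k, false, true) * (f (k, true, false) * f (k, true, true))) := by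
  rw [prod_product]
  refine prod_congr rfl fun k _ => ?_
  rw [Fintype.prod_prod_type, Fintype.prod_bool, Fintype.prod_bool, Fintype.prod_bool]
  ring

lemma sum_F2 {n : ℕ} (K : ℕ) (c : ℕ → ℂ) (θ : Fin n → ℝ) :
    ∑ i, F K c (θ i) = ∑ k ∈ range K, (2 * (c k).re * st k false θ + 2 * (c k).im * st k true θ) := by
  rw [sum_F, sum_product]
  refine sum_congr rfl fun k _ => ?_
  rw [Fintype.sum_bool]
  unfold co
  simp only [if_true, Bool.false_eq_true, if_false]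
  ring

lemma norm_sq_re (c : ℂ) : ‖c‖ ^ 2 = c.re ^ 2 + c.im ^ 2 := by
  rw [← Complex.normSq_eq_norm_sq, Complex.normSq_apply]
  ring

lemma sqrt_aux {q : ℝ} (hq : 0 < q) (x y : ℝ) : (Real.sqrt q)⁻¹ * Real.exp x * ((Real.sqrt q)⁻¹ * Real.exp y) =
    q⁻¹ * Real.exp (x + y) := by
  have h2 : (Real.sqrt q)⁻¹ * (Real.sqrt q)⁻¹ = q⁻¹ := by
    rw [← mul_inv, Real.mul_self_sqrt hq.le]
  rw [mul_mul_mul_comm, h2, ← Real.exp_add]

/-- **two components** -/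
theorem M2 {n n' : ℕ} {ν : Measure (Fin n → ℝ)} [IsFiniteMeasure ν] {ν' : Measure (Fin n' → ℝ)} [IsFiniteMeasure ν']
    {V : (Fin n → ℝ) → ℝ} (hV : Measurable V) (hV0 : ∀ θ, 0 ≤ V θ) {C : ℝ} (hVC : ∀ θ, V θ ≤ C) {A : ℝ} (hA : 0 ≤ A)
    {V' : (Fin n' → ℝ) → ℝ} (hV' : Measurable V') (hV0' : ∀ θ, 0 ≤ V' θ) {C' : ℝ} (hVC' : ∀ θ, V' θ ≤ C') {A' : ℝ}
    (hA' : 0 ≤ A') {K : ℕ}
    (hS : ∀ c : ℕ → ℂ, ∫ θ, V θ * Real.exp (∑ i, F K c (θ i)) ∂ν ≤
      A * Real.exp (∑ k ∈ range K, ((k : ℝ) + 1) * ‖c k‖ ^ 2))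
    (hS' : ∀ c : ℕ → ℂ, ∫ θ, V' θ * Real.exp (∑ i, F K c (θ i)) ∂ν' ≤
      A' * Real.exp (∑ k ∈ range K, ((k : ℝ) + 1) * ‖c k‖ ^ 2)) (ws wc : ℕ → ℝ)
    (hw : ∀ k < K, |wc k| ≤ ws k) (hwp : ∀ k < K, ((k : ℝ) + 1) * (ws k + wc k) < 2)
    (hwm : ∀ k < K, ((k : ℝ) + 1) * (ws k - wc k) < 2) (cX cY : ℕ → ℂ) :
    ∫ x : (Fin n → ℝ) × (Fin n' → ℝ), V x.1 * V' x.2 *
      Real.exp (∑ i, ∑ j ∈ Ioi i, ∑ k ∈ range K, ws k * Real.cos (((k : ℝ) + 1) * (x.1 i - x.1 j)) +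
        ∑ i, ∑ j ∈ Ioi i, ∑ k ∈ range K, ws k * Real.cos (((k : ℝ) + 1) * (x.2 i - x.2 j)) +
        ∑ i, ∑ j, ∑ k ∈ range K, wc k * Real.cos (((k : ℝ) + 1) * (x.1 i - x.2 j))) *
      Real.exp (∑ i, F K cX (x.1 i) + ∑ i, F K cY (x.2 i)) ∂(ν.prod ν') ≤
    A * A' * Real.exp (-(((n : ℝ) + n') / 2 * ∑ k ∈ range K, ws k)) *
      ∏ k ∈ range K, ((1 - ((k : ℝ) + 1) * (ws k + wc k) / 2)⁻¹ * (1 - ((k : ℝ) + 1) * (ws k - wc k) / 2)⁻¹ *
        Real.exp (((k : ℝ) + 1) * (‖cX k + cY k‖ ^ 2 / 2 / (1 - ((k : ℝ) + 1) * (ws k + wc k) / 2) +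
          ‖cX k - cY k‖ ^ 2 / 2 / (1 - ((k : ℝ) + 1) * (ws k - wc k) / 2)))) := by
  obtain ⟨S, hSdef⟩ : ∃ S, S = ∑ k ∈ range K, ws k := ⟨_, rfl⟩
  rw [← hSdef]
  obtain ⟨P, hP⟩ : ∃ P : ℕ × Bool × Bool → ((Fin n → ℝ) × (Fin n' → ℝ)) → ℝ,
    P = fun p x => st p.1 p.2.2 x.1 + sn p.2.1 * st p.1 p.2.2 x.2 := ⟨_, rfl⟩
  have hPm : ∀ p, Measurable (P p) := fun p => by
    rw [hP]
    exact ((measurable_st _ _).comp measurable_fst).add (((measurable_st _ _).comp measurable_snd).const_mul _)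
  -- the pair sums
  have hpair : ∀ x : (Fin n → ℝ) × (Fin n' → ℝ),
      ∑ i, ∑ j ∈ Ioi i, ∑ k ∈ range K, ws k * Real.cos (((k : ℝ) + 1) * (x.1 i - x.1 j)) +
        ∑ i, ∑ j ∈ Ioi i, ∑ k ∈ range K, ws k * Real.cos (((k : ℝ) + 1) * (x.2 i - x.2 j)) +
        ∑ i, ∑ j, ∑ k ∈ range K, wc k * Real.cos (((k : ℝ) + 1) * (x.1 i - x.2 j)) =
      ∑ p ∈ range K ×ˢ (univ : Finset (Bool × Bool)), (ws p.1 + sn p.2.1 * wc p.1) / 2 * P p x ^ 2 / 2 -
        ((n : ℝ) + n') / 2 * S := by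
    intro x
    have e1 : ∀ {m : ℕ} (θ : Fin m → ℝ), ∑ i, ∑ j ∈ Ioi i, ∑ k ∈ range K, ws k * Real.cos (((k : ℝ) + 1) * (θ i - θ j)) =
        ∑ k ∈ range K, ws k * ∑ i, ∑ j ∈ Ioi i, Real.cos (((k : ℝ) + 1) * (θ i - θ j)) := by
      intro m θ
      simp only [mul_sum]
      have e2 : ∀ i : Fin m, ∑ j ∈ Ioi i, ∑ k ∈ range K, ws k * Real.cos (((k : ℝ) + 1) * (θ i - θ j)) =
          ∑ k ∈ range K, ∑ j ∈ Ioi i, ws k * Real.cos (((k : ℝ) + 1) * (θ i - θ j)) := fun i => sum_comm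
      rw [sum_congr rfl fun i _ => e2 i, sum_comm]
    have e3 : ∑ i, ∑ j, ∑ k ∈ range K, wc k * Real.cos (((k : ℝ) + 1) * (x.1 i - x.2 j)) =
        ∑ k ∈ range K, wc k * ∑ i, ∑ j, Real.cos (((k : ℝ) + 1) * (x.1 i - x.2 j)) := by
      simp only [mul_sum]
      have e2 : ∀ i : Fin n, ∑ j, ∑ k ∈ range K, wc k * Real.cos (((k : ℝ) + 1) * (x.1 i - x.2 j)) =
          ∑ k ∈ range K, ∑ j, wc k * Real.cos (((k : ℝ) + 1) * (x.1 i - x.2 j)) := fun i => sum_comm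
      rw [sum_congr rfl fun i _ => e2 i, sum_comm]
    rw [e1, e1, e3, sum3, hSdef, mul_sum, ← sum_sub_distrib, ← sum_add_distrib, ← sum_add_distrib]
    refine sum_congr rfl fun k _ => ?_
    rw [pair_eq, pair_eq, cross_eq, hP]
    unfold sn
    simp only [if_true, Bool.false_eq_true, if_false]
    ring
  have hlin := mixN (ν := ν.prod ν') (W := fun x : (Fin n → ℝ) × (Fin n' → ℝ) => ENNReal.ofReal (V x.1) * ENNReal.ofReal (V' x.2))
    ((hV.ennreal_ofReal.comp measurable_fst).mul (hV'.ennreal_ofReal.comp measurable_snd))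
    (range K ×ˢ (univ : Finset (Bool × Bool))) (P := P) hPm
    (B := ENNReal.ofReal A * ENNReal.ofReal A') (κ := fun p => 2 * ((p.1 : ℝ) + 1))
    (w := fun p => (ws p.1 + sn p.2.1 * wc p.1) / 2)
    (fun p hp => by
      have h1 := hw _ (mem_range.1 (mem_product.1 hp).1)
      rw [abs_le] at h1
      unfold sn
      split_ifs <;> linarith)
    (fun p hp => by
      have h1 := hwp _ (mem_range.1 (mem_product.1 hp).1)
      have h2 := hwm _ (mem_range.1 (mem_product.1 hp).1)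
      unfold sn
      split_ifs <;> linarith)
    (fun a => by
      obtain ⟨dX, hdX⟩ : ∃ d : ℕ → ℂ, d = fun k => ((a (k, false, false) + a (k, true, false) : ℝ) : ℂ) +
        ((a (k, false, true) + a (k, true, true) : ℝ) : ℂ) * Complex.I := ⟨_, rfl⟩
      obtain ⟨dY, hdY⟩ : ∃ d : ℕ → ℂ, d = fun k => ((a (k, false, false) - a (k, true, false) : ℝ) : ℂ) +
        ((a (k, false, true) - a (k, true, true) : ℝ) : ℂ) * Complex.I := ⟨_, rfl⟩
      have x1 : ∀ k, (dX k).re = a (k, false, false) + a (k, true, false) := fun k => by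
        rw [hdX]
        simp
      have x2 : ∀ k, (dX k).im = a (k, false, true) + a (k, true, true) := fun k => by
        rw [hdX]
        simp
      have y1 : ∀ k, (dY k).re = a (k, false, false) - a (k, true, false) := fun k => by
        rw [hdY]
        simp
      have y2 : ∀ k, (dY k).im = a (k, false, true) - a (k, true, true) := fun k => by
        rw [hdY]
        simp
      have h1 := hyp_lint hV hV0 hVC hA hS dX
      have h2 := hyp_lint hV' hV0' hVC' hA' hS' dY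
      have e1 : Real.exp (∑ k ∈ range K, ((k : ℝ) + 1) * ‖dX k‖ ^ 2) * Real.exp (∑ k ∈ range K, ((k : ℝ) + 1) * ‖dY k‖ ^ 2) =
          Real.exp (∑ i ∈ range K ×ˢ (univ : Finset (Bool × Bool)), 2 * ((i.1 : ℝ) + 1) * a i ^ 2) := by
        rw [← Real.exp_add, ← sum_add_distrib, sum3]
        congr 1
        refine sum_congr rfl fun k _ => ?_
        rw [norm_sq_re, norm_sq_re, x1, x2, y1, y2]
        ring
      have e2 : ∀ x : (Fin n → ℝ) × (Fin n' → ℝ), Real.exp (∑ i, F K dX (x.1 i)) * Real.exp (∑ i, F K dY (x.2 i)) =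
          Real.exp (∑ p ∈ range K ×ˢ (univ : Finset (Bool × Bool)), 2 * a p * P p x) := by
        intro x
        rw [← Real.exp_add, sum_F2, sum_F2, ← sum_add_distrib, sum3]
        congr 1
        refine sum_congr rfl fun k _ => ?_
        rw [x1, x2, y1, y2, hP]
        unfold sn
        simp only [if_true, Bool.false_eq_true, if_false]
        ring
      have h3 := mul_le_mul' h1 h2
      rw [← lintegral_prod_mul (μ := ν) (ν := ν')
        (f := fun θ => ENNReal.ofReal (V θ) * ENNReal.ofReal (Real.exp (∑ i, F K dX (θ i))))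
        (g := fun θ => ENNReal.ofReal (V' θ) * ENNReal.ofReal (Real.exp (∑ i, F K dY (θ i))))
        (hV.ennreal_ofReal.mul (measurable_sum_F K dX).exp.ennreal_ofReal).aemeasurable
        (hV'.ennreal_ofReal.mul (measurable_sum_F K dY).exp.ennreal_ofReal).aemeasurable] at h3
      have e3 : ENNReal.ofReal A * ENNReal.ofReal (Real.exp (∑ k ∈ range K, ((k : ℝ) + 1) * ‖dX k‖ ^ 2)) *
          (ENNReal.ofReal A' * ENNReal.ofReal (Real.exp (∑ k ∈ range K, ((k : ℝ) + 1) * ‖dY k‖ ^ 2))) =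
          ENNReal.ofReal A * ENNReal.ofReal A' * ENNReal.ofReal (Real.exp
            (∑ i ∈ range K ×ˢ (univ : Finset (Bool × Bool)), 2 * ((i.1 : ℝ) + 1) * a i ^ 2)) := by
        rw [mul_mul_mul_comm, ← ENNReal.ofReal_mul (Real.exp_pos _).le, e1]
      rw [e3] at h3
      refine le_trans (le_of_eq (lintegral_congr fun x => ?_)) h3
      rw [mul_mul_mul_comm, ← ENNReal.ofReal_mul (Real.exp_pos _).le, e2 x])
    (fun p => (co (cX p.1) p.2.2 + sn p.2.1 * co (cY p.1) p.2.2) / 2)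
  have hqp : ∀ k < K, 0 < 1 - ((k : ℝ) + 1) * (ws k + wc k) / 2 := fun k hk => by
    have := hwp k hk
    linarith
  have hqm : ∀ k < K, 0 < 1 - ((k : ℝ) + 1) * (ws k - wc k) / 2 := fun k hk => by
    have := hwm k hk
    linarith
  -- the product
  have hprod : ∏ i ∈ range K ×ˢ (univ : Finset (Bool × Bool)),
      ((Real.sqrt (1 - 2 * ((i.1 : ℝ) + 1) * ((ws i.1 + sn i.2.1 * wc i.1) / 2) / 2))⁻¹ *
      Real.exp (2 * ((i.1 : ℝ) + 1) * ((co (cX i.1) i.2.2 + sn i.2.1 * co (cY i.1) i.2.2) / 2) ^ 2 /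
        (1 - 2 * ((i.1 : ℝ) + 1) * ((ws i.1 + sn i.2.1 * wc i.1) / 2) / 2))) =
      ∏ k ∈ range K, ((1 - ((k : ℝ) + 1) * (ws k + wc k) / 2)⁻¹ * (1 - ((k : ℝ) + 1) * (ws k - wc k) / 2)⁻¹ *
        Real.exp (((k : ℝ) + 1) * (‖cX k + cY k‖ ^ 2 / 2 / (1 - ((k : ℝ) + 1) * (ws k + wc k) / 2) +
          ‖cX k - cY k‖ ^ 2 / 2 / (1 - ((k : ℝ) + 1) * (ws k - wc k) / 2)))) := by
    rw [prod3]
    refine prod_congr rfl fun k hk => ?_
    have h1 := hqp k (mem_range.1 hk)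
    have h2 := hqm k (mem_range.1 hk)
    have g1 : 1 - 2 * ((k : ℝ) + 1) * ((ws k + sn false * wc k) / 2) / 2 = 1 - ((k : ℝ) + 1) * (ws k + wc k) / 2 := by
      unfold sn
      simp only [Bool.false_eq_true, if_false]
      ring
    have g2 : 1 - 2 * ((k : ℝ) + 1) * ((ws k + sn true * wc k) / 2) / 2 = 1 - ((k : ℝ) + 1) * (ws k - wc k) / 2 := by
      unfold sn
      simp only [if_true]
      ring
    simp only
    rw [g1, g2]
    obtain ⟨q, hq⟩ : ∃ q, q = 1 - ((k : ℝ) + 1) * (ws k + wc k) / 2 := ⟨_, rfl⟩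
    obtain ⟨q', hq'⟩ : ∃ q', q' = 1 - ((k : ℝ) + 1) * (ws k - wc k) / 2 := ⟨_, rfl⟩
    rw [← hq] at h1 ⊢
    rw [← hq'] at h2 ⊢
    rw [sqrt_aux h1, sqrt_aux h2, mul_mul_mul_comm, ← Real.exp_add, norm_sq_re, norm_sq_re]
    congr 2
    unfold co sn
    simp only [if_true, Bool.false_eq_true, if_false, Complex.add_re, Complex.add_im, Complex.sub_re, Complex.sub_im]
    ring
  rw [hprod] at hlin
  obtain ⟨Q, hQdef⟩ : ∃ Q, Q = ∏ k ∈ range K, ((1 - ((k : ℝ) + 1) * (ws k + wc k) / 2)⁻¹ *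
      (1 - ((k : ℝ) + 1) * (ws k - wc k) / 2)⁻¹ *
        Real.exp (((k : ℝ) + 1) * (‖cX k + cY k‖ ^ 2 / 2 / (1 - ((k : ℝ) + 1) * (ws k + wc k) / 2) +
          ‖cX k - cY k‖ ^ 2 / 2 / (1 - ((k : ℝ) + 1) * (ws k - wc k) / 2)))) := ⟨_, rfl⟩
  rw [← hQdef] at hlin ⊢
  have hQ : 0 ≤ Q := by
    rw [hQdef]
    refine prod_nonneg fun k hk => ?_
    have h1 := hqp k (mem_range.1 hk)
    have h2 := hqm k (mem_range.1 hk)
    positivity
  have hmeas : Measurable fun x : (Fin n → ℝ) × (Fin n' → ℝ) => ∑ p ∈ range K ×ˢ (univ : Finset (Bool × Bool)),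
      (ws p.1 + sn p.2.1 * wc p.1) / 2 * P p x ^ 2 / 2 :=
    Finset.measurable_sum _ fun p _ => (((hPm p).pow_const 2).const_mul _).div_const _
  have hFm : Measurable fun x : (Fin n → ℝ) × (Fin n' → ℝ) => ∑ i, F K cX (x.1 i) + ∑ i, F K cY (x.2 i) :=
    ((measurable_sum_F K cX).comp measurable_fst).add ((measurable_sum_F K cY).comp measurable_snd)
  have hfun : (fun x : (Fin n → ℝ) × (Fin n' → ℝ) => V x.1 * V' x.2 *
      Real.exp (∑ i, ∑ j ∈ Ioi i, ∑ k ∈ range K, ws k * Real.cos (((k : ℝ) + 1) * (x.1 i - x.1 j)) +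
        ∑ i, ∑ j ∈ Ioi i, ∑ k ∈ range K, ws k * Real.cos (((k : ℝ) + 1) * (x.2 i - x.2 j)) +
        ∑ i, ∑ j, ∑ k ∈ range K, wc k * Real.cos (((k : ℝ) + 1) * (x.1 i - x.2 j))) *
      Real.exp (∑ i, F K cX (x.1 i) + ∑ i, F K cY (x.2 i))) =
      fun x => V x.1 * V' x.2 * Real.exp (∑ p ∈ range K ×ˢ (univ : Finset (Bool × Bool)),
        (ws p.1 + sn p.2.1 * wc p.1) / 2 * P p x ^ 2 / 2 - ((n : ℝ) + n') / 2 * S) *
        Real.exp (∑ i, F K cX (x.1 i) + ∑ i, F K cY (x.2 i)) := by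
    funext x
    rw [hpair x]
  rw [hfun]
  refine of_lint ((((hV.comp measurable_fst).mul (hV'.comp measurable_snd)).mul (hmeas.sub_const _).exp).mul hFm.exp)
    (fun x => mul_nonneg (mul_nonneg (mul_nonneg (hV0 _) (hV0' _)) (Real.exp_pos _).le) (Real.exp_pos _).le)
    (mul_nonneg (mul_nonneg (mul_nonneg hA hA') (Real.exp_pos _).le) hQ) ?_
  have e5 : ∀ x : (Fin n → ℝ) × (Fin n' → ℝ), ENNReal.ofReal (V x.1 * V' x.2 *
      Real.exp (∑ p ∈ range K ×ˢ (univ : Finset (Bool × Bool)),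
        (ws p.1 + sn p.2.1 * wc p.1) / 2 * P p x ^ 2 / 2 - ((n : ℝ) + n') / 2 * S) *
        Real.exp (∑ i, F K cX (x.1 i) + ∑ i, F K cY (x.2 i))) =
      ENNReal.ofReal (Real.exp (-(((n : ℝ) + n') / 2 * S))) * (ENNReal.ofReal (V x.1) * ENNReal.ofReal (V' x.2) *
        ENNReal.ofReal (Real.exp (∑ p ∈ range K ×ˢ (univ : Finset (Bool × Bool)),
        ((ws p.1 + sn p.2.1 * wc p.1) / 2 * P p x ^ 2 / 2 +
          2 * ((co (cX p.1) p.2.2 + sn p.2.1 * co (cY p.1) p.2.2) / 2) * P p x)))) := by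
    intro x
    rw [← ENNReal.ofReal_mul (hV0 _), ← ENNReal.ofReal_mul (mul_nonneg (hV0 _) (hV0' _)),
      ← ENNReal.ofReal_mul (Real.exp_pos _).le]
    congr 1
    have e6 : ∑ i, F K cX (x.1 i) + ∑ i, F K cY (x.2 i) = ∑ p ∈ range K ×ˢ (univ : Finset (Bool × Bool)),
        2 * ((co (cX p.1) p.2.2 + sn p.2.1 * co (cY p.1) p.2.2) / 2) * P p x := by
      rw [sum_F2, sum_F2, ← sum_add_distrib, sum3]
      refine sum_congr rfl fun k _ => ?_
      rw [hP]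
      unfold sn co
      simp only [if_true, Bool.false_eq_true, if_false]
      ring
    rw [e6, sum_add_distrib, sub_eq_add_neg, Real.exp_add, Real.exp_add (∑ p ∈ _, _)]
    ring
  refine le_trans (le_of_eq (lintegral_congr e5)) ?_
  rw [lintegral_const_mul' _ _ ENNReal.ofReal_ne_top]
  refine (mul_le_mul_right hlin _).trans (le_of_eq ?_)
  rw [← ENNReal.ofReal_mul hA, ← ENNReal.ofReal_mul (mul_nonneg hA hA'), ← ENNReal.ofReal_mul (Real.exp_pos _).le]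
  congr 1
  ring

end Mix56
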