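import Pool.Agent.NUGas56.Mix2
import Pool.Agent.Szego62.Heine

/-!
Sharp upper bounds for gases on the circle with additional positive definite pair interactions: unconditional forms.
-/

set_option autoImplicit false

namespace Mix56

open MeasureTheory ProbabilityTheory ENNReal Finset

open Pool.Agent.Szego62 (mu V szego_integral)

lemma F_szego (K : ℕ) (c : ℕ → ℂ) (x : ℝ) : Pool.Agent.Szego62.F K c x = F K c x := by
  rw [F_eq]
  unfold Pool.Agent.Szego62.F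
  refine sum_congr rfl fun k _ => ?_
  congr 3
  push_cast
  ring

lemma V_meas (n : ℕ) : Measurable (V n) := by
  have : Continuous (V n) := by
    unfold V
    fun_prop
  exact this.measurable

lemma V_nonneg (n : ℕ) (θ : Fin n → ℝ) : 0 ≤ V n θ := by
  unfold V
  positivity

lemma V_le (n : ℕ) (θ : Fin n → ℝ) : V n θ ≤ ∏ i : Fin n, ∏ j ∈ Ioi i, (4 : ℝ) := by
  unfold V
  refine prod_le_prod (fun i _ => prod_nonneg fun j _ => by positivity) fun i _ => ?_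
  refine prod_le_prod (fun j _ => by positivity) fun j _ => ?_
  have h1 : ‖Complex.exp (θ i * Complex.I) - Complex.exp (θ j * Complex.I)‖ ≤ 2 := by
    refine (norm_sub_le _ _).trans ?_
    rw [Complex.norm_exp_ofReal_mul_I, Complex.norm_exp_ofReal_mul_I]
    norm_num
  have h2 := norm_nonneg (Complex.exp (θ i * Complex.I) - Complex.exp (θ j * Complex.I))
  nlinarith

lemma szego_F (n K : ℕ) (c : ℕ → ℂ) : ∫ θ : Fin n → ℝ, V n θ * Real.exp (∑ i, F K c (θ i)) ∂(Measure.pi fun _ => mu) ≤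
    (n.factorial : ℝ) * Real.exp (∑ k ∈ range K, ((k : ℝ) + 1) * ‖c k‖ ^ 2) := by
  have h1 := szego_integral n K c
  simp only [F_szego] at h1
  exact h1

/-- one component: the circular gas with the pair interaction sum_k w_k cos ((k + 1) (x - y)) in the exponent -/
theorem circle1 (n K : ℕ) (w : ℕ → ℝ) (hw : ∀ k < K, 0 ≤ w k) (hw2 : ∀ k < K, ((k : ℝ) + 1) * w k < 2) (c : ℕ → ℂ) :
    ∫ θ : Fin n → ℝ, V n θ *
      Real.exp (∑ i, ∑ j ∈ Ioi i, ∑ k ∈ range K, w k * Real.cos (((k : ℝ) + 1) * (θ i - θ j))) *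
      Real.exp (∑ i, F K c (θ i)) ∂(Measure.pi fun _ => mu) ≤
    (n.factorial : ℝ) * Real.exp (-((n : ℝ) / 2 * ∑ k ∈ range K, w k)) *
      ∏ k ∈ range K, ((1 - ((k : ℝ) + 1) * w k / 2)⁻¹ *
      Real.exp (((k : ℝ) + 1) * ‖c k‖ ^ 2 / (1 - ((k : ℝ) + 1) * w k / 2))) :=
  M1 (V_meas n) (V_nonneg n) (V_le n) (by positivity) (fun c => szego_F n K c) w hw hw2 c

/-- two components -/
theorem circle2 (n n' K : ℕ) (ws wc : ℕ → ℝ) (hw : ∀ k < K, |wc k| ≤ ws k)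
    (hwp : ∀ k < K, ((k : ℝ) + 1) * (ws k + wc k) < 2) (hwm : ∀ k < K, ((k : ℝ) + 1) * (ws k - wc k) < 2)
    (cX cY : ℕ → ℂ) :
    ∫ x : (Fin n → ℝ) × (Fin n' → ℝ), V n x.1 * V n' x.2 *
      Real.exp (∑ i, ∑ j ∈ Ioi i, ∑ k ∈ range K, ws k * Real.cos (((k : ℝ) + 1) * (x.1 i - x.1 j)) +
        ∑ i, ∑ j ∈ Ioi i, ∑ k ∈ range K, ws k * Real.cos (((k : ℝ) + 1) * (x.2 i - x.2 j)) +
        ∑ i, ∑ j, ∑ k ∈ range K, wc k * Real.cos (((k : ℝ) + 1) * (x.1 i - x.2 j))) *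
      Real.exp (∑ i, F K cX (x.1 i) + ∑ i, F K cY (x.2 i)) ∂((Measure.pi fun _ => mu).prod (Measure.pi fun _ => mu)) ≤
    (n.factorial : ℝ) * (n'.factorial : ℝ) * Real.exp (-(((n : ℝ) + n') / 2 * ∑ k ∈ range K, ws k)) *
      ∏ k ∈ range K, ((1 - ((k : ℝ) + 1) * (ws k + wc k) / 2)⁻¹ * (1 - ((k : ℝ) + 1) * (ws k - wc k) / 2)⁻¹ *
        Real.exp (((k : ℝ) + 1) * (‖cX k + cY k‖ ^ 2 / 2 / (1 - ((k : ℝ) + 1) * (ws k + wc k) / 2) +
          ‖cX k - cY k‖ ^ 2 / 2 / (1 - ((k : ℝ) + 1) * (ws k - wc k) / 2)))) :=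
  M2 (V_meas n) (V_nonneg n) (V_le n) (by positivity) (V_meas n') (V_nonneg n') (V_le n') (by positivity)
    (fun c => szego_F n K c) (fun c => szego_F n' K c) ws wc hw hwp hwm cX cY

end Mix56
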