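import Mathlib

/-!
Gaussian mixtures: from the exponential moments of a family of linear statistics to those of their squares.
-/

set_option autoImplicit false

namespace Mix56

open MeasureTheory ProbabilityTheory ENNReal Finset

open scoped NNReal

/-- first formula: E exp (t x) -/
lemma gauss1 (v : ℝ≥0) (t : ℝ) :
    ∫⁻ x, ENNReal.ofReal (Real.exp (x * t)) ∂(gaussianReal 0 v) = ENNReal.ofReal (Real.exp (v * t ^ 2 / 2)) := by
  have h1 := integrable_exp_mul_gaussianReal (μ := 0) (v := v) t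
  have h2 := mgf_gaussianReal (p := gaussianReal 0 v) (X := fun x => x) (μ := 0) (v := v) (by simp) t
  have h3 : ∫ x, Real.exp (t * x) ∂(gaussianReal 0 v) = Real.exp (v * t ^ 2 / 2) := by
    unfold mgf at h2
    rw [h2]
    congr 1
    simp
  rw [← h3, ofReal_integral_eq_lintegral_ofReal h1 (Filter.Eventually.of_forall fun x => (Real.exp_pos _).le)]
  refine lintegral_congr fun x => ?_
  rw [mul_comm]

/-- second formula: E exp (κ (a + x / 2) ^ 2) -/
lemma gauss2 {w : ℝ≥0} {κ : ℝ} (hkw : κ * w < 2) (a : ℝ) :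
    ∫⁻ x, ENNReal.ofReal (Real.exp (κ * (a + x / 2) ^ 2)) ∂(gaussianReal 0 w) =
      ENNReal.ofReal ((Real.sqrt (1 - κ * w / 2))⁻¹ * Real.exp (κ * a ^ 2 / (1 - κ * w / 2))) := by
  by_cases h0 : w = 0
  · rw [h0, gaussianReal_zero_var, lintegral_dirac]
    simp
  · have hw0 : (0 : ℝ) < w := by
      rw [NNReal.coe_pos]
      exact pos_iff_ne_zero.2 h0
    obtain ⟨q, hq⟩ : ∃ q, q = 1 - κ * w / 2 := ⟨_, rfl⟩
    have hq0 : 0 < q := by rw [hq]; linarith
    rw [← hq]
    obtain ⟨v, hv⟩ : ∃ v : ℝ≥0, v = w / q.toNNReal := ⟨_, rfl⟩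
    have hvr : (v : ℝ) = w / q := by rw [hv, NNReal.coe_div, Real.coe_toNNReal _ hq0.le]
    have hvne : v ≠ 0 := by
      intro h
      rw [h] at hvr
      have : (0 : ℝ) < w / q := div_pos hw0 hq0
      rw [← hvr] at this
      simp at this
    rw [gaussianReal_of_var_ne_zero _ h0, lintegral_withDensity_eq_lintegral_mul _ (measurable_gaussianPDF _ _)
      (by fun_prop)]
    have key : ∀ x : ℝ, (gaussianPDF 0 w * fun x => ENNReal.ofReal (Real.exp (κ * (a + x / 2) ^ 2))) x =
        ENNReal.ofReal ((Real.sqrt q)⁻¹ * Real.exp (κ * a ^ 2 / q)) *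
          ENNReal.ofReal (gaussianPDFReal (κ * a * (w / q)) v x) := by
      intro x
      rw [Pi.mul_apply]
      unfold gaussianPDF
      rw [← ENNReal.ofReal_mul (gaussianPDFReal_nonneg _ _ _), ← ENNReal.ofReal_mul (by positivity)]
      congr 1
      unfold gaussianPDFReal
      rw [hvr]
      have e1 : Real.sqrt (2 * Real.pi * (w / q)) = Real.sqrt (2 * Real.pi * w) * (Real.sqrt q)⁻¹ := by
        rw [← Real.sqrt_inv, ← Real.sqrt_mul (by positivity)]
        congr 1
        ring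
      rw [e1]
      have e3 : -(x - 0) ^ 2 / (2 * (w : ℝ)) + κ * (a + x / 2) ^ 2 =
          κ * a ^ 2 / q + -(x - κ * a * (w / q)) ^ 2 / (2 * (w / q)) := by
        have e4 : κ = 2 * (1 - q) / w := by
          rw [hq]
          field_simp
          ring
        rw [e4]
        field_simp
        ring
      have e5 : Real.sqrt q ≠ 0 := (Real.sqrt_pos.2 hq0).ne'
      have e6 : Real.sqrt (2 * Real.pi * w) ≠ 0 := (Real.sqrt_pos.2 (by positivity)).ne'
      calc (Real.sqrt (2 * Real.pi * w))⁻¹ * Real.exp (-(x - 0) ^ 2 / (2 * w)) * Real.exp (κ * (a + x / 2) ^ 2) =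
          (Real.sqrt (2 * Real.pi * w))⁻¹ * Real.exp (-(x - 0) ^ 2 / (2 * w) + κ * (a + x / 2) ^ 2) := by
            rw [Real.exp_add, mul_assoc]
        _ = (Real.sqrt (2 * Real.pi * w))⁻¹ * (Real.exp (κ * a ^ 2 / q) *
          Real.exp (-(x - κ * a * (w / q)) ^ 2 / (2 * (w / q)))) := by rw [e3, Real.exp_add]
        _ = _ := by
          field_simp
    rw [lintegral_congr key, lintegral_const_mul _ (by fun_prop), lintegral_gaussianPDFReal_eq_one _ hvne, mul_one]

variable {Ω : Type*} [MeasurableSpace Ω]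

/-- one statistic -/
theorem mix1 {ν : Measure Ω} [SFinite ν] {W : Ω → ℝ≥0∞} (hW : Measurable W) {P : Ω → ℝ} (hP : Measurable P)
    {B : ℝ≥0∞} {κ w : ℝ} (hw : 0 ≤ w) (hkw : κ * w < 2)
    (h : ∀ s : ℝ, ∫⁻ x, W x * ENNReal.ofReal (Real.exp (2 * s * P x)) ∂ν ≤ B * ENNReal.ofReal (Real.exp (κ * s ^ 2)))
    (a : ℝ) :
    ∫⁻ x, W x * ENNReal.ofReal (Real.exp (w * (P x) ^ 2 / 2 + 2 * a * P x)) ∂ν ≤
      B * ENNReal.ofReal ((Real.sqrt (1 - κ * w / 2))⁻¹ * Real.exp (κ * a ^ 2 / (1 - κ * w / 2))) := by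
  obtain ⟨v, hv⟩ : ∃ v : ℝ≥0, v = w.toNNReal := ⟨_, rfl⟩
  have hvr : (v : ℝ) = w := by rw [hv, Real.coe_toNNReal _ hw]
  have h1 : ∀ x, W x * ENNReal.ofReal (Real.exp (w * (P x) ^ 2 / 2 + 2 * a * P x)) =
      ∫⁻ y, W x * ENNReal.ofReal (Real.exp (2 * (a + y / 2) * P x)) ∂(gaussianReal 0 v) := by
    intro x
    rw [lintegral_const_mul _ (by fun_prop), Real.exp_add, ENNReal.ofReal_mul (Real.exp_pos _).le, ← hvr,
      ← gauss1 v (P x), ← lintegral_mul_const _ (by fun_prop)]
    congr 1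
    refine lintegral_congr fun y => ?_
    rw [← ENNReal.ofReal_mul (Real.exp_pos _).le, ← Real.exp_add]
    congr 2
    ring
  rw [← hvr] at hkw
  have h2 := gauss2 hkw a
  rw [hvr] at h2
  rw [lintegral_congr h1, lintegral_lintegral_swap (by fun_prop), ← h2, ← lintegral_const_mul _ (by fun_prop)]
  exact lintegral_mono fun y => h _

/-- any finite family of statistics -/
theorem mixN {ι : Type*} [DecidableEq ι] {ν : Measure Ω} [SFinite ν] {W : Ω → ℝ≥0∞} (hW : Measurable W) (t : Finset ι)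
    {P : ι → Ω → ℝ} (hP : ∀ i, Measurable (P i)) {B : ℝ≥0∞} {κ w : ι → ℝ}
    (hw : ∀ i ∈ t, 0 ≤ w i) (hkw : ∀ i ∈ t, κ i * w i < 2)
    (h : ∀ a : ι → ℝ, ∫⁻ x, W x * ENNReal.ofReal (Real.exp (∑ i ∈ t, 2 * a i * P i x)) ∂ν ≤
      B * ENNReal.ofReal (Real.exp (∑ i ∈ t, κ i * a i ^ 2))) (a : ι → ℝ) :
    ∫⁻ x, W x * ENNReal.ofReal (Real.exp (∑ i ∈ t, (w i * (P i x) ^ 2 / 2 + 2 * a i * P i x))) ∂ν ≤
      B * ENNReal.ofReal (∏ i ∈ t, ((Real.sqrt (1 - κ i * w i / 2))⁻¹ *
        Real.exp (κ i * a i ^ 2 / (1 - κ i * w i / 2)))) := by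
  have main : ∀ s : Finset ι, s ⊆ t → ∀ a : ι → ℝ,
      ∫⁻ x, W x * ENNReal.ofReal (Real.exp (∑ i ∈ s, (w i * (P i x) ^ 2 / 2 + 2 * a i * P i x) +
        ∑ i ∈ t \ s, 2 * a i * P i x)) ∂ν ≤
      B * ENNReal.ofReal ((∏ i ∈ s, ((Real.sqrt (1 - κ i * w i / 2))⁻¹ *
        Real.exp (κ i * a i ^ 2 / (1 - κ i * w i / 2)))) * Real.exp (∑ i ∈ t \ s, κ i * a i ^ 2)) := by
    intro s
    induction s using Finset.induction_on with
    | empty =>
      intro _ a
      simpa using h a
    | insert j s hj ih =>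
      intro hst a
      have hjt : j ∈ t := hst (mem_insert_self _ _)
      have hjs : j ∈ t \ s := mem_sdiff.2 ⟨hjt, hj⟩
      have ht2 : t \ s = insert j (t \ insert j s) := by
        ext i
        simp only [mem_sdiff, mem_insert]
        by_cases hij : i = j
        · rw [hij]
          tauto
        · tauto
      have hj2 : j ∉ t \ insert j s := by simp
      obtain ⟨W', hW'⟩ : ∃ W' : Ω → ℝ≥0∞, W' = fun x => W x * ENNReal.ofReal (Real.exp
        (∑ i ∈ s, (w i * (P i x) ^ 2 / 2 + 2 * a i * P i x) + ∑ i ∈ t \ insert j s, 2 * a i * P i x)) := ⟨_, rfl⟩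
      obtain ⟨B', hB'⟩ : ∃ B' : ℝ≥0∞, B' = B * ENNReal.ofReal ((∏ i ∈ s, ((Real.sqrt (1 - κ i * w i / 2))⁻¹ *
        Real.exp (κ i * a i ^ 2 / (1 - κ i * w i / 2)))) * Real.exp (∑ i ∈ t \ insert j s, κ i * a i ^ 2)) := ⟨_, rfl⟩
      have hW'm : Measurable W' := by
        rw [hW']
        have : Measurable fun x => ∑ i ∈ s, (w i * (P i x) ^ 2 / 2 + 2 * a i * P i x) +
            ∑ i ∈ t \ insert j s, 2 * a i * P i x :=
          (Finset.measurable_sum _ fun i _ => (((hP i).pow_const 2).const_mul _ |>.div_const _).add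
            ((hP i).const_mul _)).add (Finset.measurable_sum _ fun i _ => (hP i).const_mul _)
        exact hW.mul (ENNReal.measurable_ofReal.comp (Real.measurable_exp.comp this))
      have hp : 0 ≤ ∏ i ∈ s, ((Real.sqrt (1 - κ i * w i / 2))⁻¹ *
          Real.exp (κ i * a i ^ 2 / (1 - κ i * w i / 2))) := Finset.prod_nonneg fun i _ => by positivity
      have hyp : ∀ s' : ℝ, ∫⁻ x, W' x * ENNReal.ofReal (Real.exp (2 * s' * P j x)) ∂ν ≤
          B' * ENNReal.ofReal (Real.exp (κ j * s' ^ 2)) := by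
        intro s'
        have h1 := ih (fun i hi => hst (mem_insert_of_mem hi)) (Function.update a j s')
        have e0 : ∀ i ∈ s, Function.update a j s' i = a i := fun i hi =>
          Function.update_of_ne (ne_of_mem_of_not_mem hi hj) _ _
        have e1 : ∀ i ∈ t \ insert j s, Function.update a j s' i = a i := fun i hi =>
          Function.update_of_ne (ne_of_mem_of_not_mem hi hj2) _ _
        rw [ht2] at h1
        have e2 : ∀ x, ∑ i ∈ s, (w i * (P i x) ^ 2 / 2 + 2 * Function.update a j s' i * P i x) +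
            ∑ i ∈ insert j (t \ insert j s), 2 * Function.update a j s' i * P i x =
            (∑ i ∈ s, (w i * (P i x) ^ 2 / 2 + 2 * a i * P i x) + ∑ i ∈ t \ insert j s, 2 * a i * P i x) +
              2 * s' * P j x := by
          intro x
          rw [sum_insert hj2, Function.update_self, sum_congr rfl (fun i hi => by rw [e0 i hi]),
            sum_congr (s₁ := t \ insert j s) rfl (fun i hi => by rw [e1 i hi])]
          ring
        have e3 : (∏ i ∈ s, ((Real.sqrt (1 - κ i * w i / 2))⁻¹ *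
            Real.exp (κ i * Function.update a j s' i ^ 2 / (1 - κ i * w i / 2)))) *
            Real.exp (∑ i ∈ insert j (t \ insert j s), κ i * Function.update a j s' i ^ 2) =
            (∏ i ∈ s, ((Real.sqrt (1 - κ i * w i / 2))⁻¹ *
            Real.exp (κ i * a i ^ 2 / (1 - κ i * w i / 2)))) * Real.exp (∑ i ∈ t \ insert j s, κ i * a i ^ 2) *
              Real.exp (κ j * s' ^ 2) := by
          rw [sum_insert hj2, Function.update_self, prod_congr rfl (fun i hi => by rw [e0 i hi]),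
            sum_congr (s₁ := t \ insert j s) rfl (fun i hi => by rw [e1 i hi]), Real.exp_add]
          ring
        rw [e3, ENNReal.ofReal_mul (by positivity), ← mul_assoc, ← hB'] at h1
        refine le_trans (le_of_eq (lintegral_congr fun x => ?_)) h1
        rw [hW', e2 x, Real.exp_add (∑ i ∈ s, _ + _), ENNReal.ofReal_mul (Real.exp_pos _).le]
        exact mul_assoc _ _ _
      have h2 := mix1 hW'm (hP j) (hw j hjt) (hkw j hjt) hyp (a j)
      have e4 : ∀ x, ∑ i ∈ insert j s, (w i * (P i x) ^ 2 / 2 + 2 * a i * P i x) +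
          ∑ i ∈ t \ insert j s, 2 * a i * P i x =
          (∑ i ∈ s, (w i * (P i x) ^ 2 / 2 + 2 * a i * P i x) + ∑ i ∈ t \ insert j s, 2 * a i * P i x) +
            (w j * (P j x) ^ 2 / 2 + 2 * a j * P j x) := by
        intro x
        rw [sum_insert hj]
        ring
      have e5 : (∏ i ∈ insert j s, ((Real.sqrt (1 - κ i * w i / 2))⁻¹ *
          Real.exp (κ i * a i ^ 2 / (1 - κ i * w i / 2)))) * Real.exp (∑ i ∈ t \ insert j s, κ i * a i ^ 2) =
          (∏ i ∈ s, ((Real.sqrt (1 - κ i * w i / 2))⁻¹ *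
            Real.exp (κ i * a i ^ 2 / (1 - κ i * w i / 2)))) * Real.exp (∑ i ∈ t \ insert j s, κ i * a i ^ 2) *
          ((Real.sqrt (1 - κ j * w j / 2))⁻¹ * Real.exp (κ j * a j ^ 2 / (1 - κ j * w j / 2))) := by
        rw [prod_insert hj]
        ring
      rw [e5, ENNReal.ofReal_mul (by positivity), ← mul_assoc, ← hB']
      refine le_trans (le_of_eq (lintegral_congr fun x => ?_)) h2
      rw [hW', e4 x, Real.exp_add (∑ i ∈ s, _ + _), ENNReal.ofReal_mul (Real.exp_pos _).le]
      exact (mul_assoc _ _ _).symm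
  have h1 := main t (Finset.Subset.refl _) a
  simpa using h1

end Mix56
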